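import Mathlib

/-! # A generic point -/

namespace MT38

/-- A homomorphism from the ring of all functions on `T` to a field, under which
algebraically independent functions remain algebraically independent. (Localise: the set of all
`aeval x P`, `P ≠ 0` with variables in `J`, is a submonoid which does not contain `0`; take a prime
ideal disjoint from it, `Ideal.exists_le_prime_disjoint`, and the fraction field of the quotient.
Compare `gen_pt` in `Pool/Agent/LibTT45/M.lean`.) -/
theorem gen_hom {T ι : Type} (x : ι → T → ℂ) (J : Finset ι)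
    (hJ : AlgebraicIndependent ℂ (fun j : J => x j)) :
    ∃ (L : Type) (_ : Field L) (_ : Algebra ℂ L) (φ : (T → ℂ) →ₐ[ℂ] L),
      AlgebraicIndependent ℂ (fun j : J => φ (x j)) := by
  classical
  rw [algebraicIndependent_iff] at hJ
  let S : Submonoid (T → ℂ) :=
    { carrier := {F | ∃ P : MvPolynomial J ℂ, P ≠ 0 ∧
        F = MvPolynomial.aeval (fun j : J => x j) P}
      one_mem' := ⟨1, one_ne_zero, by rw [map_one]⟩
      mul_mem' := by
        rintro a b ⟨P, hP, rfl⟩ ⟨Q, hQ, rfl⟩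
        exact ⟨P * Q, mul_ne_zero hP hQ, by rw [map_mul]⟩ }
  have hdisj : Disjoint ((⊥ : Ideal (T → ℂ)) : Set (T → ℂ)) S := by
    rw [Set.disjoint_left]
    rintro F hF ⟨P, hP, rfl⟩
    exact hP (hJ P hF)
  obtain ⟨q, hq, -, hqS⟩ := Ideal.exists_le_prime_disjoint ⊥ S hdisj
  have hdom : IsDomain ((T → ℂ) ⧸ q) := Ideal.Quotient.isDomain q
  let L := FractionRing ((T → ℂ) ⧸ q)
  let φ : (T → ℂ) →ₐ[ℂ] L :=
    (IsScalarTower.toAlgHom ℂ ((T → ℂ) ⧸ q) L).comp (Ideal.Quotient.mkₐ ℂ q)
  have hφ : ∀ F, φ F = 0 ↔ F ∈ q := by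
    intro F
    change algebraMap ((T → ℂ) ⧸ q) L (Ideal.Quotient.mk q F) = 0 ↔ _
    rw [map_eq_zero_iff _ (IsFractionRing.injective ((T → ℂ) ⧸ q) L),
      Ideal.Quotient.eq_zero_iff_mem]
  refine ⟨L, inferInstance, inferInstance, φ, ?_⟩
  rw [algebraicIndependent_iff]
  intro p hp
  have h1 : φ (MvPolynomial.aeval (fun j : J => x j) p) = 0 := by
    rw [← hp]
    exact MvPolynomial.comp_aeval_apply (φ := φ) (f := fun j : J => x j) (p := p)
  rw [hφ] at h1
  by_contra hp0
  exact Set.disjoint_left.1 hqS h1 ⟨p, hp0, rfl⟩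

end MT38
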