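import Mathlib
import Pool.Agent.LibTT45.G

/-! # Valuation rings of the field of the generic point -/

namespace MT38

open Pool.Agent.LibTT45 in
private theorem mtA2_gen {ι : Type} {L : Type} [Field L] [Algebra ℂ L] (ζ : ι → L) (J : Finset ι)
    (hJ : AlgebraicIndependent ℂ (fun j : J => ζ j)) (V₀ : ValuationSubring L) :
    ∃ V : ValuationSubring L,
      (∀ c : ℂ, V₀.valuation (algebraMap ℂ L c) ≤ 1 → V.valuation (algebraMap ℂ L c) ≤ 1) ∧
      (∀ c : ℂ, V₀.valuation (algebraMap ℂ L c) < 1 → V.valuation (algebraMap ℂ L c) < 1) ∧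
      ∀ a : ι → ℤ, (∀ i, i ∉ J → a i = 0) → ∀ c : ℂ, c ≠ 0 →
        V.valuation (algebraMap ℂ L c * ∏ i ∈ J, ζ i ^ a i) = 1 → a = 0 := by
  classical
  have hζ : ∀ i ∈ J, ζ i ≠ 0 := fun i hi => hJ.ne_zero (⟨i, hi⟩ : J)
  have key : ∀ S : Finset ι, S ⊆ J → ∃ V : ValuationSubring L,
      (∀ c : ℂ, V₀.valuation (algebraMap ℂ L c) ≤ 1 → V.valuation (algebraMap ℂ L c) ≤ 1) ∧
      (∀ c : ℂ, V₀.valuation (algebraMap ℂ L c) < 1 → V.valuation (algebraMap ℂ L c) < 1) ∧
      ∀ a : ι → ℤ, (∀ i, i ∉ S → a i = 0) → ∀ c : ℂ, c ≠ 0 →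
        V.valuation (algebraMap ℂ L c * ∏ i ∈ J, ζ i ^ a i) = 1 → a = 0 := by
    intro S
    induction S using Finset.induction_on with
    | empty =>
      intro _
      exact ⟨V₀, fun c h => h, fun c h => h, fun a ha c _ _ => funext fun i => ha i (by simp)⟩
    | insert j S hj ih =>
      intro hS
      obtain ⟨V, hV1, hV2, hV3⟩ := ih (fun x hx => hS (Finset.mem_insert_of_mem hx))
      have hjJ : j ∈ J := hS (Finset.mem_insert_self j S)
      let K : IntermediateField ℂ L := IntermediateField.adjoin ℂ (ζ '' (S : Set ι))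
      have htr : Transcendental K (ζ j) := by
        rw [IntermediateField.transcendental_adjoin_iff]
        have h1 := hJ.transcendental_adjoin (s := {i : J | i.1 ∈ S}) (i := ⟨j, hjJ⟩) hj
        have h2 : (fun j : J => ζ j) '' {i : J | i.1 ∈ S} = ζ '' (S : Set ι) := by
          ext x
          constructor
          · rintro ⟨i, hi, rfl⟩
            exact ⟨i.1, hi, rfl⟩
          · rintro ⟨i, hi, rfl⟩
            exact ⟨⟨i, hS (Finset.mem_insert_of_mem hi)⟩, hi, rfl⟩
        rw [h2] at h1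
        exact h1
      obtain ⟨W, hW1, hW2, hW3⟩ := one_step K V (ζ j) htr
      refine ⟨W, fun c h => hW1 _ (K.algebraMap_mem c) (hV1 c h),
        fun c h => hW2 _ (K.algebraMap_mem c) (hV2 c h), fun a ha c hc h => ?_⟩
      set b : L := algebraMap ℂ L c * ∏ i ∈ J.erase j, ζ i ^ a i with hb
      have hbK : b ∈ K := by
        refine K.mul_mem (K.algebraMap_mem c) (prod_mem fun i hi => ?_)
        by_cases hiS : i ∈ S
        · have h1 : ζ i ∈ K := IntermediateField.subset_adjoin ℂ _ ⟨i, hiS, rfl⟩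
          exact zpow_mem h1 _
        · have hij : i ≠ j := Finset.ne_of_mem_erase hi
          rw [ha i (by simp [hij, hiS]), zpow_zero]
          exact K.one_mem
      have hfac : algebraMap ℂ L c * ∏ i ∈ J, ζ i ^ a i = b * ζ j ^ a j := by
        rw [hb, mul_assoc, Finset.prod_erase_mul _ _ hjJ]
      rw [hfac] at h
      rcases lt_trichotomy (a j) 0 with hneg | hzero | hpos
      · exfalso
        have h1 := hW3 b⁻¹ (K.inv_mem hbK) (-(a j)).toNat (by omega)
        have h2 : b⁻¹ * ζ j ^ (-(a j)).toNat = (b * ζ j ^ a j)⁻¹ := by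
          rw [← zpow_natCast, Int.toNat_of_nonneg (by omega), zpow_neg]
          exact (mul_inv b (ζ j ^ a j)).symm
        rw [h2, map_inv₀, h, inv_one] at h1
        exact lt_irrefl _ h1
      · rw [hzero, zpow_zero, mul_one] at h
        have hVb : V.valuation b = 1 := by
          rcases lt_trichotomy (V.valuation b) 1 with h1 | h1 | h1
          · exact absurd h (hW2 b hbK h1).ne
          · exact h1
          · have h2 : V.valuation b⁻¹ < 1 := by
              rw [map_inv₀]
              exact inv_lt_one_of_one_lt₀ h1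
            have h3 := hW2 b⁻¹ (K.inv_mem hbK) h2
            rw [map_inv₀, h, inv_one] at h3
            exact absurd h3 (lt_irrefl _)
        refine hV3 a (fun i hi => ?_) c hc ?_
        · by_cases hij : i = j
          · rw [hij, hzero]
          · exact ha i (by simp [hij, hi])
        · rw [hfac, hzero, zpow_zero, mul_one]
          exact hVb
      · exfalso
        have h1 := hW3 b hbK (a j).toNat (by omega)
        rw [← zpow_natCast, Int.toNat_of_nonneg hpos.le, h] at h1
        exact lt_irrefl _ h1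
  exact key J (Finset.Subset.refl J)

/-- As `Pool.Agent.LibTT45.gen_val` (file `Pool/Agent/LibTT45/G.lean`), for any index
type, with the product over `J` only (the other `ζ i` may vanish), and starting from a valuation
ring of `ℂ` (extend to `L` by `Pool.Agent.LibTT45.chev`, as in the proof of
`Pool.Agent.LibTT45.main`). Copy and adapt that proof. -/
theorem val_ext {ι : Type} {L : Type} [Field L] [Algebra ℂ L] (ζ : ι → L) (J : Finset ι)
    (hJ : AlgebraicIndependent ℂ (fun j : J => ζ j)) (V₁ : ValuationSubring ℂ) :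
    ∃ V : ValuationSubring L,
      (∀ c : ℂ, V₁.valuation c ≤ 1 → V.valuation (algebraMap ℂ L c) ≤ 1) ∧
      (∀ c : ℂ, V₁.valuation c < 1 → V.valuation (algebraMap ℂ L c) < 1) ∧
      ∀ a : ι → ℤ, (∀ i, i ∉ J → a i = 0) → ∀ c : ℂ, c ≠ 0 →
        V.valuation (algebraMap ℂ L c * ∏ i ∈ J, ζ i ^ a i) = 1 → a = 0 := by
  -- extend to `L`
  let j : V₁ →+* L := (algebraMap ℂ L).comp V₁.subtype
  obtain ⟨V₂, hV₂, hV₂'⟩ := Pool.Agent.LibTT45.chev j
    (fun x y h => Subtype.ext ((algebraMap ℂ L).injective h)) (IsLocalRing.residue V₁)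
  have h21 : ∀ c : ℂ, V₁.valuation c ≤ 1 → V₂.valuation (algebraMap ℂ L c) ≤ 1 := by
    intro c hc
    exact hV₂ ⟨c, (ValuationSubring.valuation_le_one_iff V₁ c).1 hc⟩
  have h22 : ∀ c : ℂ, V₁.valuation c < 1 → V₂.valuation (algebraMap ℂ L c) < 1 := by
    intro c hc
    refine hV₂' ⟨c, (ValuationSubring.valuation_le_one_iff V₁ c).1 hc.le⟩ ?_
    rw [IsLocalRing.residue_eq_zero_iff]
    exact (ValuationSubring.valuation_lt_one_iff V₁ ⟨c, _⟩).2 hc
  obtain ⟨V, hV1, hV2, hV3⟩ := mtA2_gen ζ J hJ V₂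
  exact ⟨V, fun c h => hV1 c (h21 c h), fun c h => hV2 c (h22 c h), hV3⟩

end MT38
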