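import Mathlib

/-! # Partial evaluation and the tropical lemma -/

namespace MT38

open MvPolynomial

open Classical in
/-- Partial evaluation: the variables in `S` are replaced by the numbers `c i`. -/
noncomputable def pev {ι : Type} (S : Finset ι) (c : ι → ℂ) (P : MvPolynomial ι ℂ) :
    MvPolynomial ι ℂ :=
  aeval (fun i => if i ∈ S then C (c i) else X i) P

open Classical in
/-- The part of the exponent `γ` outside `S`. -/
noncomputable def off {ι : Type} (S : Finset ι) (γ : ι →₀ ℕ) : ι →₀ ℕ :=
  γ.filter (fun i => i ∉ S)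

open Classical in
/-- The part of the exponent `δ` inside `S`. -/
private noncomputable def mtA3_ins {ι : Type} (S : Finset ι) (δ : ι →₀ ℕ) : ι →₀ ℕ :=
  δ.filter (fun i => i ∈ S)

open Classical in
/-- The coefficient polynomial. -/
private noncomputable def mtA3_R {ι : Type} (P : MvPolynomial ι ℂ) (S : Finset ι) (γ : ι →₀ ℕ) :
    MvPolynomial ι ℂ :=
  ∑ δ ∈ P.support, if off S δ = off S γ then monomial (mtA3_ins S δ) (coeff δ P) else 0

private lemma mtA3_eq {ι : Type} {S : Finset ι} {γ δ : ι →₀ ℕ} (h1 : off S δ = off S γ)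
    (h2 : mtA3_ins S δ = mtA3_ins S γ) : δ = γ := by
  classical
  ext i
  by_cases hi : i ∈ S
  · have := DFunLike.congr_fun h2 i
    simpa [mtA3_ins, Finsupp.filter_apply, hi] using this
  · have := DFunLike.congr_fun h1 i
    simpa [off, Finsupp.filter_apply, hi] using this

private lemma mtA3_R_ne {ι : Type} (P : MvPolynomial ι ℂ) (S : Finset ι) (γ : ι →₀ ℕ)
    (hγ : γ ∈ P.support) : mtA3_R P S γ ≠ 0 := by
  classical
  have h : coeff (mtA3_ins S γ) (mtA3_R P S γ) = coeff γ P := by
    unfold mtA3_R
    rw [coeff_sum, Finset.sum_eq_single γ]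
    · rw [if_pos rfl, coeff_monomial, if_pos rfl]
    · intro δ _ hne
      by_cases h1 : off S δ = off S γ
      · rw [if_pos h1, coeff_monomial, if_neg]
        exact fun h2 => hne (mtA3_eq h1 h2)
      · rw [if_neg h1, coeff_zero]
    · intro h
      exact absurd hγ h
  intro h0
  rw [h0, coeff_zero] at h
  exact (mem_support_iff.1 hγ) h.symm

private lemma mtA3_prod {ι : Type} [Fintype ι] (S : Finset ι) (c : ι → ℂ) (δ : ι →₀ ℕ) [DecidableEq ι] :
    (∏ i, (if i ∈ S then C (c i) else X i : MvPolynomial ι ℂ) ^ δ i)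
      = monomial (off S δ) (∏ i, c i ^ (mtA3_ins S δ i)) := by
  classical
  rw [monomial_eq, Finsupp.prod_fintype _ _ (fun i => by simp), map_prod, ← Finset.prod_mul_distrib]
  refine Finset.prod_congr rfl fun i _ => ?_
  by_cases hi : i ∈ S
  · simp [mtA3_ins, off, Finsupp.filter_apply, hi]
  · simp [mtA3_ins, off, Finsupp.filter_apply, hi]

private lemma mtA3_coeff {ι : Type} [Fintype ι] (P : MvPolynomial ι ℂ) (S : Finset ι)
    (c : ι → ℂ) (γ : ι →₀ ℕ) :
    coeff (off S γ) (pev S c P) = eval c (mtA3_R P S γ) := by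
  classical
  unfold pev mtA3_R
  rw [aeval_def, eval₂_eq', coeff_sum, map_sum]
  refine Finset.sum_congr rfl fun δ _ => ?_
  have h := mtA3_prod S c δ
  rw [show (∏ i, (if i ∈ S then C (c i) else X i : MvPolynomial ι ℂ) ^ δ i)
      = monomial (off S δ) (∏ i, c i ^ (mtA3_ins S δ i)) by convert h]
  rw [algebraMap_eq, C_mul_monomial, coeff_monomial]
  by_cases h1 : off S δ = off S γ
  · rw [if_pos h1, if_pos h1, eval_monomial, Finsupp.prod_fintype _ _ (fun i => by simp)]
  · rw [if_neg h1, if_neg h1, map_zero]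

/-- There is a point with positive integral coordinates at which all coefficients of all
given polynomials, with respect to any set of variables, are nonzero unless they vanish
identically. (For `P`, `S`, `γ ∈ P.support` the polynomial
`∑ δ ∈ P.support with off S δ = off S γ, coeff δ P * monomial (part of δ inside S)` is not zero, as
its coefficient at the part of `γ` inside `S` is `coeff γ P`, and its value at `c` is
`coeff (off S γ) (pev S c P)`. A finite product of nonzero polynomials has a nonzero value at some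
point with positive integral coordinates, e.g. by `MvPolynomial.funext_set` or a similar lemma.) -/
theorem exists_c {ι : Type} [Fintype ι] (PP : Finset (MvPolynomial ι ℂ)) :
    ∃ c : ι → ℕ, (∀ i, 0 < c i) ∧ ∀ P ∈ PP, ∀ S : Finset ι, ∀ γ ∈ P.support,
      coeff (off S γ) (pev S (fun i => (c i : ℂ)) P) ≠ 0 := by
  classical
  set F : MvPolynomial ι ℂ :=
    ∏ P ∈ PP, ∏ S ∈ (Finset.univ : Finset (Finset ι)), ∏ γ ∈ P.support, mtA3_R P S γ with hF
  have hF0 : F ≠ 0 := by
    rw [hF, Finset.prod_ne_zero_iff]
    intro P _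
    rw [Finset.prod_ne_zero_iff]
    intro S _
    rw [Finset.prod_ne_zero_iff]
    intro γ hγ
    exact mtA3_R_ne P S γ hγ
  have hinf : ∀ _ : ι, (Set.range fun n : ℕ => ((n + 1 : ℕ) : ℂ)).Infinite := fun _ =>
    Set.infinite_range_of_injective fun m n h => by
      have : (m + 1 : ℕ) = n + 1 := by exact_mod_cast h
      omega
  have hex : ∃ x ∈ Set.pi Set.univ (fun _ : ι => Set.range fun n : ℕ => ((n + 1 : ℕ) : ℂ)),
      eval x F ≠ 0 := by
    by_contra hcon
    push Not at hcon
    apply hF0
    refine funext_set _ hinf fun x hx => ?_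
    rw [hcon x hx, map_zero]
  obtain ⟨x, hx, hxF⟩ := hex
  choose n hn using fun i => hx i (Set.mem_univ i)
  refine ⟨fun i => n i + 1, fun i => Nat.succ_pos _, fun P hP S γ hγ => ?_⟩
  have hxn : (fun i => ((n i + 1 : ℕ) : ℂ)) = x := funext fun i => hn i
  rw [hxn, mtA3_coeff]
  intro h0
  apply hxF
  rw [hF, map_prod]
  refine Finset.prod_eq_zero hP ?_
  rw [map_prod]
  refine Finset.prod_eq_zero (Finset.mem_univ S) ?_
  rw [map_prod]
  exact Finset.prod_eq_zero hγ h0

end MT38
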