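import Mathlib
import Pool.Agent.LibMT38.A3

/-! # The tropical lemma -/

namespace MT38

open MvPolynomial

/-- `x` and `y` are integral and congruent. -/
private def mtA4_R {L : Type} [Field L] (V : ValuationSubring L) (x y : L) : Prop :=
  V.valuation x ≤ 1 ∧ V.valuation y ≤ 1 ∧ V.valuation (x - y) < 1

private theorem mtA4_one {L : Type} [Field L] (V : ValuationSubring L) : mtA4_R V 1 1 := by
  refine ⟨?_, ?_, ?_⟩ <;> simp

private theorem mtA4_mul {L : Type} [Field L] (V : ValuationSubring L) {x y x' y' : L}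
    (h : mtA4_R V x y) (h' : mtA4_R V x' y') : mtA4_R V (x * x') (y * y') := by
  refine ⟨?_, ?_, ?_⟩
  · rw [map_mul]
    exact mul_le_one' h.1 h'.1
  · rw [map_mul]
    exact mul_le_one' h.2.1 h'.2.1
  · have h1 : x * x' - y * y' = x * (x' - y') + (x - y) * y' := by ring
    rw [h1]
    refine lt_of_le_of_lt (V.valuation.map_add _ _) (max_lt ?_ ?_)
    · rw [map_mul]
      exact lt_of_le_of_lt (mul_le_of_le_one_left' h.1) h'.2.2
    · rw [map_mul]
      exact lt_of_le_of_lt (mul_le_of_le_one_right' h'.2.1) h.2.2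

private theorem mtA4_pow {L : Type} [Field L] (V : ValuationSubring L) {x y : L}
    (h : mtA4_R V x y) (n : ℕ) : mtA4_R V (x ^ n) (y ^ n) := by
  induction n with
  | zero => simpa using mtA4_one V
  | succ n ih =>
    rw [pow_succ, pow_succ]
    exact mtA4_mul V ih h

private theorem mtA4_prod {ι : Type} {L : Type} [Field L] (V : ValuationSubring L)
    (T : Finset ι) (x y : ι → L) (h : ∀ i ∈ T, mtA4_R V (x i) (y i)) :
    mtA4_R V (∏ i ∈ T, x i) (∏ i ∈ T, y i) := by
  classical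
  induction T using Finset.induction_on with
  | empty => simpa using mtA4_one V
  | insert a T ha ih =>
    rw [Finset.prod_insert ha, Finset.prod_insert ha]
    exact mtA4_mul V (h a (Finset.mem_insert_self a T))
      (ih fun i hi => h i (Finset.mem_insert_of_mem hi))

private theorem mtA4_off {ι : Type} (S : Finset ι) (γ : ι →₀ ℕ) (i : ι) :
    (i ∈ S → off S γ i = 0) ∧ (i ∉ S → off S γ i = γ i) := by
  constructor
  · intro h
    unfold off
    rw [Finsupp.filter_apply_neg]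
    simpa using h
  · intro h
    unfold off
    rw [Finsupp.filter_apply_pos]
    exact h

private theorem mtA4_term {ι : Type} [Fintype ι] [DecidableEq ι] (S : Finset ι) (c : ι → ℂ) (γ : ι →₀ ℕ) (a : ℂ) :
    (C a : MvPolynomial ι ℂ) * ∏ i, (if i ∈ S then C (c i) else X i : MvPolynomial ι ℂ) ^ γ i =
      monomial (off S γ) (a * ∏ i ∈ S, c i ^ γ i) := by
  rw [monomial_eq, Finsupp.prod_fintype _ _ (fun i => pow_zero _), map_mul, map_prod, mul_assoc]
  congr 1
  have h1 : ∏ i ∈ S, (C (c i ^ γ i) : MvPolynomial ι ℂ) =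
      ∏ i, if i ∈ S then (C (c i ^ γ i) : MvPolynomial ι ℂ) else 1 := by
    rw [Finset.prod_ite_mem, Finset.univ_inter]
  rw [h1, ← Finset.prod_mul_distrib]
  refine Finset.prod_congr rfl fun i _ => ?_
  by_cases h : i ∈ S
  · rw [if_pos h, if_pos h, (mtA4_off S γ i).1 h, pow_zero, mul_one, map_pow]
  · rw [if_neg h, if_neg h, (mtA4_off S γ i).2 h, one_mul]

private theorem mtA4_pev {ι : Type} [Fintype ι] [DecidableEq ι] (S : Finset ι) (c : ι → ℂ)
    (P : MvPolynomial ι ℂ) :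
    pev S c P = ∑ γ ∈ P.support, monomial (off S γ) (coeff γ P * ∏ i ∈ S, c i ^ γ i) := by
  unfold pev
  rw [aeval_def, eval₂_eq']
  refine Finset.sum_congr rfl fun γ _ => ?_
  rw [← mtA4_term, algebraMap_eq]
  congr!

/-- Tropical lemma. Write `Q = pev S c P`. Then
`0 = aeval ζ P = ∑ γ, coeff γ P * ζ ^ γ`, and `coeff γ P * (ζ ^ γ - c ^ (part of γ inside S) *
ζ ^ (off S γ))` is smaller than `ζ ^ (off S γ)` for all `γ`; so the value of `aeval ζ Q` is smaller
than the largest value of `ζ ^ α`, `α ∈ Q.support`, and this largest value is attained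
at least twice (as in `Pool.Agent.LibTT45.trop`, file `Pool/Agent/LibTT45/R.lean`). -/
theorem trop {ι : Type} [Fintype ι] [DecidableEq ι] {L : Type} [Field L] [Algebra ℂ L]
    (V : ValuationSubring L)
    (ζ : ι → L) (I S : Finset ι) (c : ι → ℂ) (P : MvPolynomial ι ℂ) (hP : P ≠ 0)
    (hvars : P.vars ⊆ I) (hζ : ∀ i ∈ I, i ∉ S → ζ i ≠ 0)
    (hco : ∀ γ ∈ P.support, V.valuation (algebraMap ℂ L (coeff γ P)) = 1)
    (hc : ∀ i ∈ S, V.valuation (algebraMap ℂ L (c i)) ≤ 1)
    (hS : ∀ i ∈ S, V.valuation (ζ i - algebraMap ℂ L (c i)) < 1)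
    (hne : ∀ γ ∈ P.support, coeff (off S γ) (pev S c P) ≠ 0)
    (hco' : ∀ α ∈ (pev S c P).support, V.valuation (algebraMap ℂ L (coeff α (pev S c P))) = 1)
    (h0 : aeval ζ P = 0) :
    ∃ α ∈ (pev S c P).support, ∃ β ∈ (pev S c P).support, α ≠ β ∧
      (∀ i, i ∉ I \ S → α i = 0 ∧ β i = 0) ∧
      V.valuation (∏ i ∈ I \ S, ζ i ^ ((α i : ℤ) - (β i : ℤ))) = 1 := by
  -- support of the partial evaluation
  have hsupp : ∀ α ∈ (pev S c P).support, ∃ γ ∈ P.support, off S γ = α := by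
    intro α hα
    rw [mem_support_iff, mtA4_pev, coeff_sum] at hα
    obtain ⟨γ, hγ, h1⟩ := Finset.exists_ne_zero_of_sum_ne_zero hα
    refine ⟨γ, hγ, ?_⟩
    by_contra h2
    rw [coeff_monomial, if_neg h2] at h1
    exact h1 rfl
  have hPI : ∀ γ ∈ P.support, ∀ i, i ∉ I → γ i = 0 := by
    intro γ hγ i hi
    by_contra h1
    exact hi (hvars ((mem_vars_iff_mem_support i).2 ⟨γ, hγ, Finsupp.mem_support_iff.2 h1⟩))
  have hz : ∀ α ∈ (pev S c P).support, ∀ i, i ∉ I \ S → α i = 0 := by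
    intro α hα i hi
    obtain ⟨γ, hγ, rfl⟩ := hsupp α hα
    by_cases hiS : i ∈ S
    · exact (mtA4_off S γ i).1 hiS
    · rw [(mtA4_off S γ i).2 hiS]
      exact hPI γ hγ i fun hI => hi (Finset.mem_sdiff.2 ⟨hI, hiS⟩)
  have hζ' : ∀ i ∈ I \ S, ζ i ≠ 0 := fun i hi =>
    hζ i (Finset.mem_sdiff.1 hi).1 (Finset.mem_sdiff.1 hi).2
  have hm : ∀ α : ι →₀ ℕ, ∏ i ∈ I \ S, ζ i ^ α i ≠ 0 := fun α =>
    Finset.prod_ne_zero_iff.2 fun i hi => pow_ne_zero _ (hζ' i hi)
  have hQ0 : (pev S c P).support.Nonempty := by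
    obtain ⟨γ, hγ⟩ := support_nonempty.2 hP
    exact ⟨off S γ, mem_support_iff.2 (hne γ hγ)⟩
  obtain ⟨α, hα, hmax⟩ := Finset.exists_max_image (pev S c P).support
    (fun α => V.valuation (∏ i ∈ I \ S, ζ i ^ α i)) hQ0
  -- the value of the partial evaluation is small
  have hsmall : V.valuation (aeval ζ (pev S c P)) < V.valuation (∏ i ∈ I \ S, ζ i ^ α i) := by
    have hmono : ∀ γ ∈ P.support, ∏ i, ζ i ^ off S γ i = ∏ i ∈ I \ S, ζ i ^ γ i := by
      intro γ hγ
      have h2 : ∏ i ∈ I \ S, ζ i ^ γ i = ∏ i ∈ I \ S, ζ i ^ off S γ i :=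
        Finset.prod_congr rfl fun i hi => by
          rw [(mtA4_off S γ i).2 (Finset.mem_sdiff.1 hi).2]
      rw [h2]
      refine (Finset.prod_subset (Finset.subset_univ _) fun i _ hi => ?_).symm
      rw [hz (off S γ) (mem_support_iff.2 (hne γ hγ)) i hi, pow_zero]
    have h1 : aeval ζ (pev S c P) = ∑ γ ∈ P.support, algebraMap ℂ L (coeff γ P) *
        (((∏ i ∈ S, algebraMap ℂ L (c i) ^ γ i) - ∏ i ∈ S, ζ i ^ γ i) *
          ∏ i ∈ I \ S, ζ i ^ γ i) := by
      have h2 : aeval ζ (pev S c P) =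
          ∑ γ ∈ P.support, algebraMap ℂ L (coeff γ P) *
            ((∏ i ∈ S, algebraMap ℂ L (c i) ^ γ i) * ∏ i ∈ I \ S, ζ i ^ γ i) := by
        rw [mtA4_pev, map_sum]
        refine Finset.sum_congr rfl fun γ hγ => ?_
        rw [aeval_monomial, Finsupp.prod_fintype _ _ (fun i => pow_zero _), hmono γ hγ, map_mul,
          map_prod, mul_assoc]
        simp only [map_pow]
      have h3 : (0 : L) = ∑ γ ∈ P.support, algebraMap ℂ L (coeff γ P) *
            ((∏ i ∈ S, ζ i ^ γ i) * ∏ i ∈ I \ S, ζ i ^ γ i) := by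
        rw [← h0, aeval_def, eval₂_eq']
        refine Finset.sum_congr rfl fun γ hγ => ?_
        congr 1
        rw [← hmono γ hγ]
        have h4 : ∏ i ∈ S, ζ i ^ γ i = ∏ i, if i ∈ S then ζ i ^ γ i else 1 := by
          rw [Finset.prod_ite_mem, Finset.univ_inter]
        rw [h4, ← Finset.prod_mul_distrib]
        refine Finset.prod_congr rfl fun i _ => ?_
        by_cases h : i ∈ S
        · rw [if_pos h, (mtA4_off S γ i).1 h, pow_zero, mul_one]
        · rw [if_neg h, (mtA4_off S γ i).2 h, one_mul]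
      rw [h2, ← sub_zero (∑ γ ∈ P.support, _), h3, ← Finset.sum_sub_distrib]
      refine Finset.sum_congr rfl fun γ _ => ?_
      ring
    rw [h1]
    refine V.valuation.map_sum_lt ((Valuation.ne_zero_iff _).2 (hm α)) fun γ hγ => ?_
    rw [map_mul, map_mul, hco γ hγ, one_mul]
    have h5 : V.valuation ((∏ i ∈ S, algebraMap ℂ L (c i) ^ γ i) - ∏ i ∈ S, ζ i ^ γ i) < 1 := by
      refine (mtA4_prod V S _ _ fun i hi => mtA4_pow V ?_ (γ i)).2.2
      refine ⟨hc i hi, ?_, ?_⟩
      · have h6 : ζ i = (ζ i - algebraMap ℂ L (c i)) + algebraMap ℂ L (c i) := by ring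
        rw [h6]
        exact (V.valuation.map_add _ _).trans (max_le (hS i hi).le (hc i hi))
      · rw [Valuation.map_sub_swap]
        exact hS i hi
    have h7 : ∏ i ∈ I \ S, ζ i ^ γ i = ∏ i ∈ I \ S, ζ i ^ off S γ i :=
        Finset.prod_congr rfl fun i hi => by
          rw [(mtA4_off S γ i).2 (Finset.mem_sdiff.1 hi).2]
    rw [h7]
    have h8 := hmax (off S γ) (mem_support_iff.2 (hne γ hγ))
    have h9 : 0 < V.valuation (∏ i ∈ I \ S, ζ i ^ off S γ i) :=
      zero_lt_iff.2 ((Valuation.ne_zero_iff _).2 (hm _))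
    exact lt_of_lt_of_le (mul_lt_of_lt_one_left h9 h5) h8
  have hfull : ∀ β ∈ (pev S c P).support, ∏ i, ζ i ^ β i = ∏ i ∈ I \ S, ζ i ^ β i := by
    intro β hβ
    refine (Finset.prod_subset (Finset.subset_univ _) fun i _ hi => ?_).symm
    rw [hz β hβ i hi, pow_zero]
  have hsum : aeval ζ (pev S c P) = ∑ β ∈ (pev S c P).support,
      algebraMap ℂ L (coeff β (pev S c P)) * ∏ i ∈ I \ S, ζ i ^ β i := by
    rw [aeval_def, eval₂_eq']
    refine Finset.sum_congr rfl fun β hβ => ?_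
    rw [hfull β hβ]
  by_contra hcon
  push Not at hcon
  have hlt : ∀ β ∈ (pev S c P).support.erase α,
      V.valuation (algebraMap ℂ L (coeff β (pev S c P)) * ∏ i ∈ I \ S, ζ i ^ β i) <
        V.valuation (algebraMap ℂ L (coeff α (pev S c P)) * ∏ i ∈ I \ S, ζ i ^ α i) := by
    intro β hβ
    have hβs := Finset.mem_of_mem_erase hβ
    rw [map_mul, map_mul, hco' β hβs, hco' α hα, one_mul, one_mul]
    refine lt_of_le_of_ne (hmax β hβs) fun heq => ?_
    refine hcon α hα β hβs (Finset.ne_of_mem_erase hβ).symm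
      (fun i hi => ⟨hz α hα i hi, hz β hβs i hi⟩) ?_
    have h1 : ∏ i ∈ I \ S, ζ i ^ ((α i : ℤ) - (β i : ℤ)) =
        (∏ i ∈ I \ S, ζ i ^ α i) / ∏ i ∈ I \ S, ζ i ^ β i := by
      rw [← Finset.prod_div_distrib]
      refine Finset.prod_congr rfl fun i hi => ?_
      rw [zpow_sub₀ (hζ' i hi), zpow_natCast, zpow_natCast]
    rw [h1, map_div₀, heq, div_self]
    exact (Valuation.ne_zero_iff _).2 (hm α)
  have h2 : V.valuation (∑ β ∈ (pev S c P).support,
      algebraMap ℂ L (coeff β (pev S c P)) * ∏ i ∈ I \ S, ζ i ^ β i) =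
      V.valuation (algebraMap ℂ L (coeff α (pev S c P)) * ∏ i ∈ I \ S, ζ i ^ α i) := by
    refine V.valuation.map_sum_eq_of_lt hα ?_
    intro β hβ
    exact hlt β (by
      rw [Finset.mem_sdiff, Finset.mem_singleton] at hβ
      exact Finset.mem_erase.2 ⟨hβ.2, hβ.1⟩)
  rw [← hsum, map_mul V.valuation (algebraMap ℂ L _), hco' α hα, one_mul] at h2
  exact hsmall.ne h2

end MT38
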