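import Mathlib

/-! # Linear algebra -/

namespace MT38

/-- As `Pool.Agent.LibTT45.rank_lemma` (file `Pool/Agent/LibTT45/A.lean`): take a maximal
subset `I₀` of `A` such that no nonzero member of `D` is supported in `I₀`; then
`I₀.card + S.card ≤ d`, and every `j ∈ A \ I₀` gives a member of `D` with support in
`insert j I₀` and nonzero at `j`; these are linearly independent. -/
theorem rank_lemma {ι : Type} [Fintype ι] [DecidableEq ι] {d : ℕ} (D : Submodule ℤ (ι → ℤ))
    (A S : Finset ι) (hAS : Disjoint A S)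
    (h : ∀ I : Finset ι, I ⊆ A ∪ S → I.card = d + 1 →
      ∃ v ∈ D, v ≠ 0 ∧ ∀ i, i ∉ I \ S → v i = 0) :
    A.card + S.card ≤ d + Module.finrank ℤ D := by
  classical
  let good : Finset ι → Prop := fun I => ∀ v ∈ D, (∀ i, i ∉ I → v i = 0) → v = 0
  have h0 : good ∅ := fun v _ hv => funext fun i => hv i (by simp)
  obtain ⟨I, hI⟩ := Finset.exists_maximal (s := A.powerset.filter good)
    ⟨∅, by simp [h0]⟩
  have hIg : good I := (Finset.mem_filter.1 hI.1).2
  have hIA : I ⊆ A := Finset.mem_powerset.1 (Finset.mem_filter.1 hI.1).1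
  have hIS : Disjoint I S := Finset.disjoint_of_subset_left hIA hAS
  have hcard : I.card + S.card ≤ d := by
    by_contra hc
    push Not at hc
    rw [← Finset.card_union_of_disjoint hIS] at hc
    obtain ⟨I', hI', hI'c⟩ := Finset.exists_subset_card_eq (show d + 1 ≤ (I ∪ S).card from hc)
    obtain ⟨v, hv, hv0, hvI⟩ := h I'
      (hI'.trans (Finset.union_subset_union_left hIA)) hI'c
    refine hv0 (hIg v hv fun i hi => hvI i fun h' => ?_)
    rw [Finset.mem_sdiff] at h'
    rcases Finset.mem_union.1 (hI' h'.1) with h1 | h1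
    · exact hi h1
    · exact h'.2 h1
  have hext : ∀ j : {j // j ∈ A \ I}, ∃ v : D, (v : ι → ℤ) j.1 ≠ 0 ∧
      ∀ i, i ∉ insert j.1 I → (v : ι → ℤ) i = 0 := by
    intro j
    have hjj := Finset.mem_sdiff.1 j.2
    by_contra hcon
    push Not at hcon
    have hgood : good (insert j.1 I) := by
      intro v hv hvI
      by_cases hj : v j.1 = 0
      · refine hIg v hv fun i hi => ?_
        by_cases hij : i = j.1
        · rw [hij, hj]
        · exact hvI i (by simp [hij, hi])
      · obtain ⟨i, hi, hi'⟩ := hcon ⟨v, hv⟩ hj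
        exact absurd (hvI i hi) hi'
    have h1 := hI.2 (Finset.mem_filter.2 ⟨Finset.mem_powerset.2
      (Finset.insert_subset hjj.1 hIA), hgood⟩) (Finset.subset_insert _ _)
    exact hjj.2 (h1 (Finset.mem_insert_self _ _))
  choose v hv1 hv2 using hext
  have hli : LinearIndependent ℤ v := by
    rw [Fintype.linearIndependent_iff]
    intro c hc j
    have h1 := congrArg (fun w : D => (w : ι → ℤ) j.1) hc
    simp only [Submodule.coe_sum, Submodule.coe_smul, Finset.sum_apply, Pi.smul_apply,
      smul_eq_mul, Submodule.coe_zero, Pi.zero_apply] at h1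
    rw [Finset.sum_eq_single j] at h1
    · exact (mul_eq_zero.1 h1).resolve_right (hv1 j)
    · intro k _ hkj
      rw [hv2 k j.1, mul_zero]
      rw [Finset.mem_insert]
      rintro (h2 | h2)
      · exact hkj (Subtype.ext h2.symm)
      · exact (Finset.mem_sdiff.1 j.2).2 h2
    · intro h2
      exact absurd (Finset.mem_univ _) h2
  have h2 := hli.fintype_card_le_finrank
  rw [Fintype.card_coe, Finset.card_sdiff_of_subset hIA] at h2
  omega

/-- As `Pool.Agent.LibTT45.sum_lemma`: `(R, D, ℤ ^ J)` injects into `ℤ ^ A`. -/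
theorem sum_lemma {ι κ : Type} [Fintype ι] [DecidableEq ι] [Fintype κ] (R : Submodule ℤ (κ → ℤ))
    (D : Submodule ℤ (ι → ℤ)) (e : κ → ι) (he : Function.Injective e) (A J : Finset ι)
    (hJA : J ⊆ A) (hA : ∀ i, e i ∈ A) (hD : ∀ v ∈ D, ∀ i, i ∉ A → v i = 0)
    (h : ∀ a ∈ R, ∀ b ∈ D, ∀ c : ι → ℤ, (∀ i, i ∉ J → c i = 0) →
      (∀ i, i ∉ Set.range e → b i + c i = 0) → (∀ k, a k + b (e k) + c (e k) = 0) →
      a = 0 ∧ b = 0 ∧ c = 0) :
    Module.finrank ℤ R + Module.finrank ℤ D + J.card ≤ A.card := by
  classical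
  let g : (J → ℤ) →ₗ[ℤ] (ι → ℤ) :=
    { toFun := fun c i => if hi : i ∈ J then c ⟨i, hi⟩ else 0
      map_add' := by
        intro x y
        funext i
        by_cases hi : i ∈ J <;> simp [hi]
      map_smul' := by
        intro r x
        funext i
        by_cases hi : i ∈ J <;> simp [hi] }
  let x : (κ → ℤ) →ₗ[ℤ] (ι → ℤ) :=
    { toFun := fun a => Function.extend e a 0
      map_add' := by
        intro a b
        funext i
        by_cases hi : ∃ k, e k = i
        · obtain ⟨k, rfl⟩ := hi
          simp only [he.extend_apply, Pi.add_apply]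
        · simp only [Pi.add_apply, Function.extend_apply' _ _ _ hi, Pi.zero_apply, add_zero]
      map_smul' := by
        intro r a
        funext i
        by_cases hi : ∃ k, e k = i
        · obtain ⟨k, rfl⟩ := hi
          simp only [he.extend_apply, Pi.smul_apply, RingHom.id_apply]
        · simp only [Pi.smul_apply, Function.extend_apply' _ _ _ hi, Pi.zero_apply, smul_zero] }
  let f : (R × D × (J → ℤ)) →ₗ[ℤ] (A → ℤ) :=
    (LinearMap.funLeft ℤ ℤ (fun i : A => (i : ι))).comp
      ((x.comp R.subtype).coprod (D.subtype.coprod g))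
  have hf : Function.Injective f := by
    rw [← LinearMap.ker_eq_bot, LinearMap.ker_eq_bot']
    rintro ⟨a, b, c⟩ habc
    have h1 : ∀ i ∈ A, x (a : κ → ℤ) i + (b : ι → ℤ) i + g c i = 0 := by
      intro i hi
      have h2 := congrFun habc ⟨i, hi⟩
      rw [add_assoc]
      exact h2
    have hc : ∀ i, i ∉ J → g c i = 0 := by
      intro i hi
      change (if hi : i ∈ J then c ⟨i, hi⟩ else 0) = 0
      rw [dif_neg hi]
    have hx1 : ∀ k, x (a : κ → ℤ) (e k) = (a : κ → ℤ) k := fun k => he.extend_apply _ _ k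
    have hx2 : ∀ i, i ∉ Set.range e → x (a : κ → ℤ) i = 0 := by
      intro i hi
      exact Function.extend_apply' _ _ _ hi
    obtain ⟨ha, hb, hc'⟩ := h a a.2 b b.2 (g c) hc (by
      intro i hi
      by_cases hiA : i ∈ A
      · have := h1 i hiA
        rwa [hx2 i hi, zero_add] at this
      · rw [hD b b.2 i hiA, hc i (fun h' => hiA (hJA h')), add_zero]) (by
      intro k
      have := h1 (e k) (hA k)
      rwa [hx1] at this)
    refine Prod.ext (Subtype.ext ha) (Prod.ext (Subtype.ext hb) ?_)
    funext i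
    have h2 := congrFun hc' i.1
    change (if hi : i.1 ∈ J then c ⟨i.1, hi⟩ else 0) = 0 at h2
    rw [dif_pos i.2] at h2
    exact h2
  have h1 := LinearMap.finrank_le_finrank_of_injective hf
  rw [Module.finrank_prod, Module.finrank_prod, Module.finrank_fintype_fun_eq_card,
    Module.finrank_fintype_fun_eq_card, Fintype.card_coe, Fintype.card_coe] at h1
  omega

end MT38
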