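import Mathlib
import Pool.Agent.LibTT45.V

/-! # The value of a twist; parity -/

namespace MT38

private theorem mtA7_nat {L : Type} [Field L] (V : ValuationSubring L) (n : ℕ) :
    V.valuation (n : L) ≤ 1 :=
  (V.valuation_le_one_iff _).2 (natCast_mem V n)

private theorem mtA7_cop {L : Type} [Field L] (V : ValuationSubring L) (p G : ℕ)
    (hp : V.valuation (p : L) < 1) (hG : Nat.Coprime p G) : V.valuation (G : L) = 1 := by
  refine le_antisymm (mtA7_nat V G) ?_
  by_contra hlt
  rw [not_le] at hlt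
  have h := Nat.isCoprime_iff_coprime.2 hG
  obtain ⟨a, b, hab⟩ := h
  have e : (a : L) * (p : L) + (b : L) * (G : L) = 1 := by
    exact_mod_cast congrArg (Int.cast : ℤ → L) hab
  have ha : V.valuation (a : L) ≤ 1 := (V.valuation_le_one_iff _).2 (intCast_mem V a)
  have hb : V.valuation (b : L) ≤ 1 := (V.valuation_le_one_iff _).2 (intCast_mem V b)
  have h1 : V.valuation ((a : L) * (p : L)) < 1 := by
    rw [map_mul]
    exact lt_of_le_of_lt (mul_le_of_le_one_left' ha) hp
  have h2 : V.valuation ((b : L) * (G : L)) < 1 := by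
    rw [map_mul]
    exact lt_of_le_of_lt (mul_le_of_le_one_left' hb) hlt
  have h3 := V.valuation.map_add_lt h1 h2
  rw [e, map_one] at h3
  exact lt_irrefl _ h3

/-- Away from the residue class of `c` the numerator of the twist has the same value as
`y - c`, and the denominator that of `p ^ w * (y - c)`. (If `V.valuation (y - c) ≥ 1` then
`V.valuation (u * y + v) ≤ V.valuation (y - c)` for integral `u`, `v`.) -/
theorem val_twist {L : Type} [Field L] (V : ValuationSubring L) (p w G M c : ℕ)
    (hp : V.valuation (p : L) < 1) (hp0 : (p : L) ≠ 0) (hG : Nat.Coprime p G)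
    (hM : p ^ (w + 1) ∣ M) (u₁ u₂ u₃ u₄ y : L) (h₁ : V.valuation u₁ ≤ 1)
    (h₂ : V.valuation u₂ ≤ 1) (h₃ : V.valuation u₃ ≤ 1) (h₄ : V.valuation u₄ ≤ 1)
    (hy : ¬ V.valuation (y - (c : L)) < 1) :
    V.valuation ((1 + (M : L) * u₁) * y + (-(c : L) + (M : L) * u₂)) = V.valuation (y - (c : L)) ∧
    V.valuation (((p ^ w * G : ℕ) + (M : L) * u₃) * y +
        ((M : L) - (c : L) * ((p ^ w * G : ℕ) : L) + (M : L) * u₄)) =
      V.valuation (p : L) ^ w * V.valuation (y - (c : L)) := by
  rw [not_lt] at hy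
  have hpos : 0 < V.valuation (y - (c : L)) := lt_of_lt_of_le zero_lt_one hy
  have hc : V.valuation (c : L) ≤ 1 := mtA7_nat V c
  have hyv : V.valuation y ≤ V.valuation (y - (c : L)) := by
    have : y = (y - (c : L)) + (c : L) := by ring
    calc V.valuation y = V.valuation ((y - (c : L)) + (c : L)) := by rw [← this]
      _ ≤ max (V.valuation (y - (c : L))) (V.valuation (c : L)) := V.valuation.map_add _ _
      _ ≤ V.valuation (y - (c : L)) := max_le (le_refl _) (hc.trans hy)
  have hlin : ∀ u v : L, V.valuation u ≤ 1 → V.valuation v ≤ 1 →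
      V.valuation (u * y + v) ≤ V.valuation (y - (c : L)) := by
    intro u v hu hv
    refine (V.valuation.map_add _ _).trans (max_le ?_ (hv.trans hy))
    rw [map_mul]
    exact (mul_le_of_le_one_left' hu).trans hyv
  have hp0' : 0 < V.valuation (p : L) := by
    rw [zero_lt_iff, Ne, map_eq_zero]; exact hp0
  have hMv : V.valuation (M : L) ≤ V.valuation (p : L) ^ (w + 1) := by
    obtain ⟨k, rfl⟩ := hM
    push_cast
    rw [map_mul, map_pow]
    exact mul_le_of_le_one_right' (mtA7_nat V k)
  have hMw : V.valuation (M : L) < V.valuation (p : L) ^ w := by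
    refine lt_of_le_of_lt hMv ?_
    rw [pow_succ]
    exact mul_lt_of_lt_one_right (pow_pos hp0' w) hp
  have hw1 : V.valuation (p : L) ^ w ≤ 1 := pow_le_one' hp.le w
  refine ⟨?_, ?_⟩
  · have e : (1 + (M : L) * u₁) * y + (-(c : L) + (M : L) * u₂) =
        (y - (c : L)) + (M : L) * (u₁ * y + u₂) := by ring
    rw [e]
    apply V.valuation.map_add_eq_of_lt_left
    rw [map_mul]
    calc V.valuation (M : L) * V.valuation (u₁ * y + u₂)
        ≤ V.valuation (M : L) * V.valuation (y - (c : L)) :=
          mul_le_mul_right (hlin u₁ u₂ h₁ h₂) _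
      _ < 1 * V.valuation (y - (c : L)) := by
          rw [mul_comm, mul_comm 1]
          exact mul_lt_mul_of_pos_left (lt_of_lt_of_le hMw hw1) hpos
      _ = _ := one_mul _
  · have e : ((p ^ w * G : ℕ) + (M : L) * u₃) * y +
        ((M : L) - (c : L) * ((p ^ w * G : ℕ) : L) + (M : L) * u₄) =
        ((p ^ w * G : ℕ) : L) * (y - (c : L)) + (M : L) * (u₃ * y + (1 + u₄)) := by ring
    have hval : V.valuation (((p ^ w * G : ℕ) : L) * (y - (c : L))) =
        V.valuation (p : L) ^ w * V.valuation (y - (c : L)) := by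
      push_cast
      rw [map_mul, map_mul, map_pow, mtA7_cop V p G hp hG, mul_one]
    rw [e, ← hval]
    apply V.valuation.map_add_eq_of_lt_left
    rw [hval, map_mul]
    have h5 : V.valuation (1 + u₄) ≤ 1 :=
      (V.valuation.map_add _ _).trans (max_le (by rw [map_one]) h₄)
    calc V.valuation (M : L) * V.valuation (u₃ * y + (1 + u₄))
        ≤ V.valuation (M : L) * V.valuation (y - (c : L)) :=
          mul_le_mul_right (hlin u₃ (1 + u₄) h₃ h5) _
      _ < V.valuation (p : L) ^ w * V.valuation (y - (c : L)) := by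
          rw [mul_comm, mul_comm (V.valuation (p : L) ^ w)]
          exact mul_lt_mul_of_pos_left hMw hpos

/-- Compare the exponents of `p` on both sides. -/
theorem parity (p q r t A B : ℕ) (hp : p.Prime) (hq : q.Prime) (hr : r.Prime) (ht : t.Prime)
    (hpq : p ≠ q) (hpr : p ≠ r) (hpt : p ≠ t) (hA : 0 < A) (hB : 0 < B) :
    p * q * B ^ 2 ≠ A ^ 2 * (r * t) := by
  intro h
  have h1 := congrArg (fun n : ℕ => n.factorization p) h
  rw [Nat.factorization_mul (mul_ne_zero hp.ne_zero hq.ne_zero) (pow_ne_zero 2 hB.ne'),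
    Nat.factorization_mul hp.ne_zero hq.ne_zero,
    Nat.factorization_mul (pow_ne_zero 2 hA.ne') (mul_ne_zero hr.ne_zero ht.ne_zero),
    Nat.factorization_mul hr.ne_zero ht.ne_zero, Nat.factorization_pow, Nat.factorization_pow] at h1
  simp only [Finsupp.add_apply, Finsupp.smul_apply, smul_eq_mul] at h1
  rw [hp.factorization_self, Nat.factorization_eq_zero_of_not_dvd
      (fun hd => hpq ((Nat.prime_dvd_prime_iff_eq hp hq).1 hd)),
    Nat.factorization_eq_zero_of_not_dvd
      (fun hd => hpr ((Nat.prime_dvd_prime_iff_eq hp hr).1 hd)),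
    Nat.factorization_eq_zero_of_not_dvd
      (fun hd => hpt ((Nat.prime_dvd_prime_iff_eq hp ht).1 hd))] at h1
  omega

end MT38
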