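import Mathlib
import Pool.Agent.LibZP38.Defs

/-!
# Twists of subvarieties of `G_m ^ a × Y(1) ^ b`: the definitions used in the statement
-/

namespace MT38

open UpperHalfPlane ZP38

/-- Points of `G_m ^ a × 𝔸 ^ b`. -/
abbrev Pt (a b : ℕ) : Type := (Fin a → ℂˣ) × (Fin b → ℂ)

/-- The coordinates of a point. -/
def coord {a b : ℕ} (z : Pt a b) : Fin a ⊕ Fin b → ℂ := Sum.elim (fun i => (z.1 i : ℂ)) z.2

/-- The dimension of the Zariski closure of `Z`: the largest number of coordinates whose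
restrictions to `Z` are algebraically independent. -/
noncomputable def zdim {a b : ℕ} (Z : Set (Pt a b)) : ℕ :=
  sSup {k | ∃ J : Finset (Fin a ⊕ Fin b), J.card = k ∧
    AlgebraicIndependent ℂ (fun (j : J) (z : Z) => coord (z : Pt a b) j)}

/-- The denominator of `y ↦ (h₀₀ y + h₀₁) / (h₁₀ y + h₁₁)`. -/
def den (h : Matrix (Fin 2) (Fin 2) ℂ) (y : ℂ) : ℂ := h 1 0 * y + h 1 1

open Classical in
/-- The value `(h₀₀ y + h₀₁) / (h₁₀ y + h₁₁)`, which is `∞` if the denominator vanishes. -/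
noncomputable def mob (h : Matrix (Fin 2) (Fin 2) ℂ) (y : ℂ) : OnePoint ℂ :=
  if den h y = 0 then OnePoint.infty else (((h 0 0 * y + h 0 1) / den h y : ℂ) : OnePoint ℂ)

/-- The exponents `v` such that the character `z ^ v` is constant on `W`, with a unit of `B` as
value. -/
def unitRel {a : ℕ} (B : Subring ℂ) (W : Set (Fin a → ℂˣ)) : Submodule ℤ (Fin a → ℤ) where
  carrier := {v | ∃ u : ℂˣ, (u : ℂ) ∈ B ∧ ((u⁻¹ : ℂˣ) : ℂ) ∈ B ∧ ∀ z ∈ W, ∏ i, z i ^ v i = u}
  zero_mem' := ⟨1, by simp, by simp, fun z _ => by simp⟩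
  add_mem' := by
    rintro v w ⟨u, hu, hu', h⟩ ⟨u₂, hu₂, hu₂', h₂⟩
    refine ⟨u * u₂, ?_, ?_, fun z hz => ?_⟩
    · rw [Units.val_mul]
      exact B.mul_mem hu hu₂
    · rw [mul_inv, Units.val_mul]
      exact B.mul_mem hu' hu₂'
    · rw [← h z hz, ← h₂ z hz, ← Finset.prod_mul_distrib]
      exact Finset.prod_congr rfl fun i _ => zpow_add _ _ _
  smul_mem' := by
    rintro c v ⟨u, hu, hu', h⟩
    have hz : ∀ z ∈ W, ∏ i, z i ^ (c • v) i = u ^ c := by
      intro z hz
      rw [← h z hz, ← Finset.prod_zpow]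
      refine Finset.prod_congr rfl fun i _ => ?_
      rw [← zpow_mul, mul_comm]
      rfl
    rcases le_total 0 c with hc | hc
    · obtain ⟨k, rfl⟩ := Int.eq_ofNat_of_zero_le hc
      refine ⟨u ^ k, ?_, ?_, fun z hz' => by rw [hz z hz', zpow_natCast]⟩
      · rw [Units.val_pow_eq_pow_val]
        exact pow_mem hu k
      · rw [← inv_pow, Units.val_pow_eq_pow_val]
        exact pow_mem hu' k
    · obtain ⟨k, hk⟩ := Int.eq_ofNat_of_zero_le (neg_nonneg.2 hc)
      have hc' : c = -(k : ℤ) := by omega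
      have huc : u ^ c = (u⁻¹) ^ k := by rw [hc', zpow_neg, zpow_natCast, inv_pow]
      refine ⟨(u⁻¹) ^ k, ?_, ?_, fun z hz' => by rw [hz z hz', huc]⟩
      · rw [Units.val_pow_eq_pow_val]
        exact pow_mem hu' k
      · rw [← inv_pow, inv_inv, Units.val_pow_eq_pow_val]
        exact pow_mem hu k

/-- The special values of one coordinate: the cusp, the invariants of elliptic curves with complex
multiplication and all members of `B`. -/
def SpecialValue (B : Subring ℂ) (s : OnePoint ℂ) : Prop :=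
  s = OnePoint.infty ∨ (∃ t : ℍ, IsCM t ∧ s = (jfun t : ℂ)) ∨ ∃ x ∈ B, s = (x : ℂ)

/-- `W` lies in a special subvariety of dimension at most `m` of the compactification of
`Y(1) ^ b`: the coordinates `k` with `blk k = none` are constant and special, the others are the
invariants of the elliptic curves of parameters `A k • τ i`, where `blk k = some i` and
`τ : Fin m → ℍ`. -/
def InSpecial {b : ℕ} (B : Subring ℂ) (m : ℕ) (W : Set (Fin b → OnePoint ℂ)) : Prop :=
  ∃ (blk : Fin b → Option (Fin m)) (s : Fin b → OnePoint ℂ)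
    (A : Fin b → Matrix (Fin 2) (Fin 2) ℤ), (∀ k, SpecialValue B (s k)) ∧ (∀ k, 0 < (A k).det) ∧
      ∀ w ∈ W, ∃ τ : Fin m → ℍ, ∀ k, (blk k = none → w k = s k) ∧
        ∀ i, blk k = some i → w k = (jm (A k) (τ i) : ℂ)

/-- `g` and `h` have coefficients in `B` and are congruent to `g₀` and `h₀` modulo `M`. -/
def InClass {a b : ℕ} (B : Subring ℂ) (M : ℕ) (g₀ : Fin a → ℕ)
    (h₀ : Fin b → Matrix (Fin 2) (Fin 2) ℤ) (g : Fin a → ℂ) (h : Fin b → Matrix (Fin 2) (Fin 2) ℂ) : Prop :=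
  (∀ i, ∃ u ∈ B, g i = g₀ i + M * u) ∧
    ∀ k r c, ∃ u ∈ B, h k r c = h₀ k r c + M * u

/-- For every nonempty `Z ⊆ Y` the codimension of the smallest special subvariety containing the
image of `Z` is at most `dim Y - dim Z`. -/
def NoAtypical {a b : ℕ} (B : Subring ℂ) (Y : Set (Pt a b)) (g : Fin a → ℂˣ)
    (h : Fin b → Matrix (Fin 2) (Fin 2) ℂ) : Prop :=
  ∀ Z ⊆ Y, Z.Nonempty → ∀ m : ℕ,
    InSpecial B m {w | ∃ z ∈ Z, w = fun k => mob (h k) (z.2 k)} →
      Module.finrank ℤ (unitRel B {w | ∃ z ∈ Z, w = g * z.1}) +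
        (b - m) + zdim Z ≤ zdim Y

end MT38
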