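import Mathlib
import Pool.Agent.LibMT38.Stmt

/-! # Dimension -/

namespace MT38

open MvPolynomial

theorem zdim_bdd {a b : ℕ} (Z : Set (Pt a b)) :
    BddAbove {k | ∃ J : Finset (Fin a ⊕ Fin b), J.card = k ∧
      AlgebraicIndependent ℂ (fun (j : J) (z : Z) => coord (z : Pt a b) j)} := by
  refine ⟨Fintype.card (Fin a ⊕ Fin b), ?_⟩
  rintro k ⟨J, rfl, -⟩
  exact Finset.card_le_univ J

theorem le_zdim {a b : ℕ} {Z : Set (Pt a b)} {J : Finset (Fin a ⊕ Fin b)}
    (h : AlgebraicIndependent ℂ (fun (j : J) (z : Z) => coord (z : Pt a b) j)) :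
    J.card ≤ zdim Z :=
  le_csSup (zdim_bdd Z) ⟨J, rfl, h⟩

theorem exists_zdim {a b : ℕ} {Z : Set (Pt a b)} (hZ : Z.Nonempty) :
    ∃ J : Finset (Fin a ⊕ Fin b), J.card = zdim Z ∧
      AlgebraicIndependent ℂ (fun (j : J) (z : Z) => coord (z : Pt a b) j) := by
  have : Nonempty Z := hZ.to_subtype
  have hne : {k | ∃ J : Finset (Fin a ⊕ Fin b), J.card = k ∧
      AlgebraicIndependent ℂ (fun (j : J) (z : Z) => coord (z : Pt a b) j)}.Nonempty := by
    refine ⟨0, ∅, rfl, ?_⟩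
    rw [algebraicIndependent_empty_type_iff]
    exact (algebraMap ℂ (Z → ℂ)).injective
  exact Nat.sSup_mem hne (zdim_bdd Z)

theorem exists_rel {a b : ℕ} (Y : Set (Pt a b)) (I : Finset (Fin a ⊕ Fin b))
    (h : ¬ AlgebraicIndependent ℂ (fun (j : I) (z : Y) => coord (z : Pt a b) j)) :
    ∃ P : MvPolynomial (Fin a ⊕ Fin b) ℂ, P ≠ 0 ∧ P.vars ⊆ I ∧
      ∀ z ∈ Y, aeval (coord z) P = 0 := by
  classical
  rw [algebraicIndependent_iff] at h
  push Not at h
  obtain ⟨Q, hQ, hQ0⟩ := h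
  refine ⟨rename Subtype.val Q, fun h0 => hQ0 (rename_injective _ Subtype.val_injective
    (by rw [h0, map_zero])), ?_, fun z hz => ?_⟩
  · intro i hi
    have h3 := vars_rename (Subtype.val : I → Fin a ⊕ Fin b) Q hi
    rw [Finset.mem_image] at h3
    obtain ⟨k, -, rfl⟩ := h3
    exact k.2
  · have h1 := congrFun hQ ⟨z, hz⟩
    rw [aeval_rename]
    have h2 : (Pi.evalAlgHom ℂ (fun _ : Y => ℂ) ⟨z, hz⟩) (aeval
        (fun (j : I) (z : Y) => coord (z : Pt a b) j) Q) =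
        aeval (coord z ∘ Subtype.val) Q := by
      rw [← AlgHom.comp_apply, comp_aeval]
      rfl
    rw [← h2]
    exact h1

end MT38
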