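import Mathlib
import Pool.Agent.LibZP38.T5

/-! # Two values of `j` on one block satisfy a modular equation -/

namespace MT38

open ZP38 UpperHalfPlane

/-- The parameter `A • τ`. -/
noncomputable def ap (A : Matrix (Fin 2) (Fin 2) ℤ) (τ : ℍ) : ℍ :=
  ofComplex ((A 0 0 * (τ : ℂ) + A 0 1) / (A 1 0 * (τ : ℂ) + A 1 1))

theorem jm_eq (A : Matrix (Fin 2) (Fin 2) ℤ) (τ : ℍ) : jm A τ = jfun (ap A τ) := rfl

theorem b2_alg (a b c d p q r s t : ℂ) (h3 : c * t + d ≠ 0) (h4 : r * t + s ≠ 0) :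
    (p * t + q) / (r * t + s) * ((r * d + s * -c) * ((a * t + b) / (c * t + d)) +
      (r * -b + s * a)) = (p * d + q * -c) * ((a * t + b) / (c * t + d)) + (p * -b + q * a) := by
  have e1 : (r * d + s * -c) * ((a * t + b) / (c * t + d)) + (r * -b + s * a) =
      (r * t + s) * ((a * d - b * c) / (c * t + d)) := by
    rw [mul_div_assoc', mul_div_assoc', eq_div_iff h3, add_mul, div_mul_cancel₀ _ h3]
    ring
  have e2 : (p * d + q * -c) * ((a * t + b) / (c * t + d)) + (p * -b + q * a) =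
      (p * t + q) * ((a * d - b * c) / (c * t + d)) := by
    rw [mul_div_assoc', mul_div_assoc', eq_div_iff h3, add_mul, div_mul_cancel₀ _ h3]
    ring
  rw [e1, e2, ← mul_assoc, div_mul_cancel₀ _ h4]

theorem isog_rel (A B : Matrix (Fin 2) (Fin 2) ℤ) (hA : 0 < A.det) (hB : 0 < B.det) (N : ℕ)
    (hN : (N : ℤ) = A.det * B.det) (τ : ℍ) :
    Polynomial.eval (jm B τ) (mpol N (ap A τ)) = 0 := by
  have hN0 : 0 < N := by
    have : (0 : ℤ) < N := by rw [hN]; exact mul_pos hA hB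
    exact_mod_cast this
  have hdet : (B * A.adjugate).det = N := by
    rw [Matrix.det_mul, Matrix.det_adjugate, hN]
    simp [mul_comm]
  have h1 : ((ap A τ : ℍ) : ℂ) = ((A 0 0 : ℤ) * (τ : ℂ) + (A 0 1 : ℤ)) /
      ((A 1 0 : ℤ) * (τ : ℂ) + (A 1 1 : ℤ)) := zp4_coe A hA τ
  have h2 : ((ap B τ : ℍ) : ℂ) = ((B 0 0 : ℤ) * (τ : ℂ) + (B 0 1 : ℤ)) /
      ((B 1 0 : ℤ) * (τ : ℂ) + (B 1 1 : ℤ)) := zp4_coe B hB τ
  have h3 := zp4_denom_ne A hA τ
  have h4 := zp4_denom_ne B hB τ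
  obtain ⟨p, hp, hpj⟩ := zp5_isog_value (τ := ap A τ) (τ' := ap B τ) hN0 hdet (by
    rw [Matrix.adjugate_fin_two, h1, h2]
    simp only [Matrix.mul_apply, Fin.sum_univ_two, Matrix.of_apply, Matrix.cons_val', Matrix.cons_val_zero,
      Matrix.cons_val_one, Matrix.cons_val_fin_one]
    push_cast
    exact b2_alg _ _ _ _ _ _ _ _ _ h3 h4)
  rw [mpol, Polynomial.eval_prod]
  refine Finset.prod_eq_zero hp ?_
  rw [Polynomial.eval_sub, Polynomial.eval_X, Polynomial.eval_C, hpj, jm_eq, sub_self]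

end MT38
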