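import Mathlib
import Pool.Agent.LibZP38.T5

/-! # The Newton polygon of the modular polynomials

`mpol N τ = ∏ p ∈ idx N, (X - jm (hm N p) τ)`, and `jm (hm N p)` has a `q ^ (1 / N)`-expansion of
pole order `p.1 ^ 2` with a root of unity as leading coefficient (`intQ_jm` in
`Pool/Agent/LibZP38/T2.lean`). The lemmas on `IntQ` are in `Pool/Agent/LibZP38/T1.lean`, `inv_poly`
is in `Pool/Agent/LibZP38/T3.lean`. -/

namespace MT38

open ZP38 UpperHalfPlane

/-- The leading coefficient of a sum. -/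
theorem mtN1_sum {N m : ℕ} {ι : Type*} (s : Finset ι) (u : ι → ℂ) (F : ι → ℍ → ℂ)
    (h : ∀ i ∈ s, IntQ N m (u i) (F i)) :
    IntQ N m (∑ i ∈ s, u i) (fun τ => ∑ i ∈ s, F i τ) := by
  classical
  induction s using Finset.induction_on with
  | empty =>
    simp only [Finset.sum_empty]
    have h0 := intQ_const N 0 isIntegral_zero
    rcases Nat.eq_zero_or_pos m with rfl | hm
    · exact h0
    · have := intQ_raise h0 m hm
      rwa [Nat.zero_add] at this
  | insert a s ha ih =>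
    simp only [Finset.sum_insert ha]
    exact intQ_add (h a (Finset.mem_insert_self a s))
      (ih fun i hi => h i (Finset.mem_insert_of_mem hi))

theorem mtN1_raise {N m m' : ℕ} {u : ℂ} {F : ℍ → ℂ} (hF : IntQ N m u F) (h : m < m') :
    IntQ N m' 0 F := by
  have := intQ_raise hF (m' - m) (by omega)
  rwa [Nat.add_sub_cancel' h.le] at this

theorem mtN1_root {ι : Type*} (s : Finset ι) (u : ι → ℂ)
    (h : ∀ i ∈ s, ∃ k : ℕ, 0 < k ∧ u i ^ k = 1) : ∃ k : ℕ, 0 < k ∧ (∏ i ∈ s, u i) ^ k = 1 := by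
  classical
  induction s using Finset.induction_on with
  | empty => exact ⟨1, one_pos, by simp⟩
  | insert a s ha ih =>
    obtain ⟨k, hk, h1⟩ := h a (Finset.mem_insert_self a s)
    obtain ⟨l, hl, h2⟩ := ih fun i hi => h i (Finset.mem_insert_of_mem hi)
    refine ⟨k * l, Nat.mul_pos hk hl, ?_⟩
    rw [Finset.prod_insert ha, mul_pow, pow_mul, h1, one_pow, one_mul, mul_comm k l, pow_mul, h2,
      one_pow]

theorem mtN1_coeff (N k : ℕ) (hk : k ≤ (idx N).card) (τ : ℍ) :
    (mpol N τ).coeff ((idx N).card - k) =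
      ∑ t ∈ (idx N).powersetCard k, ∏ p ∈ t, -jm (hm N p) τ := by
  have h := Finset.prod_X_add_C_coeff (idx N) (fun p => -jm (hm N p) τ)
    (k := (idx N).card - k) (Nat.sub_le _ _)
  rw [Nat.sub_sub_self hk] at h
  rw [← h]
  simp only [mpol, map_neg, sub_eq_add_neg]

theorem mtN1_jm (N : ℕ) (hN : 0 < N) : ∃ u : ℕ × ℕ → ℂ,
    (∀ p ∈ idx N, ∃ k : ℕ, 0 < k ∧ u p ^ k = 1) ∧
    ∀ t ⊆ idx N, IntQ N (∑ p ∈ t, p.1 ^ 2) (∏ p ∈ t, u p)
      (fun τ => ∏ p ∈ t, -jm (hm N p) τ) := by
  classical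
  have h : ∀ p : ℕ × ℕ, ∃ u : ℂ, p ∈ idx N → (∃ k : ℕ, 0 < k ∧ u ^ k = 1) ∧
      IntQ N (p.1 ^ 2) u (fun τ => -jm (hm N p) τ) := by
    intro p
    by_cases hp : p ∈ idx N
    · obtain ⟨u, ⟨k, hk, h1⟩, h2⟩ := intQ_jm N hN p hp
      refine ⟨-u, fun _ => ⟨⟨2 * k, by omega, ?_⟩, intQ_neg h2⟩⟩
      rw [pow_mul, neg_sq, ← pow_mul, mul_comm 2 k, pow_mul, h1, one_pow]
    · exact ⟨0, fun h => absurd h hp⟩
  choose u hu using h
  exact ⟨u, fun p hp => (hu p hp).1, fun t ht =>
    intQ_prod hN t (fun p => p.1 ^ 2) u (fun p τ => -jm (hm N p) τ) fun p hp => (hu p (ht hp)).2⟩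

/-- The coefficient of `X ^ (ψ - k)` in `mpol N` is, up to sign, the sum of the products of
the roots over the subsets of `idx N` with `k` members, so its pole order is at most the largest
sum of the numbers `p.1 ^ 2` over such a subset. -/
theorem coeff_le (N : ℕ) (hN : 0 < N) (k : ℕ) (hk : k ≤ (idx N).card) :
    ∃ S ⊆ idx N, S.card = k ∧
      ∃ u : ℂ, IntQ N (∑ p ∈ S, p.1 ^ 2) u (fun τ => (mpol N τ).coeff ((idx N).card - k)) := by
  classical
  obtain ⟨u, -, hu⟩ := mtN1_jm N hN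
  obtain ⟨S, hS, hmax⟩ := Finset.exists_max_image ((idx N).powersetCard k)
    (fun t => ∑ p ∈ t, p.1 ^ 2) (Finset.powersetCard_nonempty.2 hk)
  rw [Finset.mem_powersetCard] at hS
  refine ⟨S, hS.1, hS.2, ∑ t ∈ (idx N).powersetCard k,
    if ∑ p ∈ t, p.1 ^ 2 = ∑ p ∈ S, p.1 ^ 2 then ∏ p ∈ t, u p else 0, ?_⟩
  have e : (fun τ => (mpol N τ).coeff ((idx N).card - k)) =
      fun τ => ∑ t ∈ (idx N).powersetCard k, ∏ p ∈ t, -jm (hm N p) τ :=
    funext fun τ => mtN1_coeff N k hk τ
  rw [e]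
  apply mtN1_sum
  intro t ht
  have h1 := hu t (Finset.mem_powersetCard.1 ht).1
  rcases (hmax t ht).lt_or_eq with h2 | h2
  · rw [if_neg h2.ne]
    exact mtN1_raise h1 h2
  · rw [if_pos h2, ← h2]
    exact h1

/-- If `p.1 < q.1` for all `p ∉ S`, `q ∈ S`, then the product over `S` is the only one of
the largest pole order, and the leading coefficient is a root of unity up to sign. -/
theorem coeff_eq (N : ℕ) (hN : 0 < N) (S : Finset (ℕ × ℕ)) (hS : S ⊆ idx N)
    (h : ∀ p ∈ idx N, p ∉ S → ∀ q ∈ S, p.1 < q.1) :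
    ∃ u : ℂ, (∃ k : ℕ, 0 < k ∧ u ^ k = 1) ∧
      IntQ N (∑ p ∈ S, p.1 ^ 2) u (fun τ => (mpol N τ).coeff ((idx N).card - S.card)) := by
  classical
  obtain ⟨u, hu1, hu⟩ := mtN1_jm N hN
  refine ⟨∏ p ∈ S, u p, mtN1_root S u fun p hp => hu1 p (hS hp), ?_⟩
  have hlt : ∀ t ∈ (idx N).powersetCard S.card, t ≠ S →
      ∑ p ∈ t, p.1 ^ 2 < ∑ p ∈ S, p.1 ^ 2 := by
    intro t ht hne
    rw [Finset.mem_powersetCard] at ht
    have hcard : (t \ S).card = (S \ t).card := Finset.card_sdiff_comm ht.2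
    have hne2 : (S \ t).Nonempty := by
      rw [Finset.nonempty_iff_ne_empty, Ne, Finset.sdiff_eq_empty_iff_subset]
      intro h1
      exact hne (Finset.eq_of_subset_of_card_le h1 ht.2.le).symm
    have hne1 : (t \ S).Nonempty := by
      rw [← Finset.card_pos, hcard, Finset.card_pos]
      exact hne2
    obtain ⟨q, hq, hmin⟩ := Finset.exists_min_image (S \ t) (fun q => q.1) hne2
    have h1 : ∑ p ∈ t \ S, p.1 ^ 2 < (t \ S).card • (q.1 ^ 2) := by
      rw [← Finset.sum_const]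
      apply Finset.sum_lt_sum_of_nonempty hne1
      intro p hp
      rw [Finset.mem_sdiff] at hp hq
      exact Nat.pow_lt_pow_left (h p (ht.1 hp.1) hp.2 q hq.1) two_ne_zero
    have h2 : (S \ t).card • (q.1 ^ 2) ≤ ∑ p ∈ S \ t, p.1 ^ 2 := by
      apply Finset.card_nsmul_le_sum
      intro p hp
      exact Nat.pow_le_pow_left (hmin p hp) 2
    rw [hcard] at h1
    have h3 := Finset.sum_inter_add_sum_sdiff t S (fun p => p.1 ^ 2)
    have h4 := Finset.sum_inter_add_sum_sdiff S t (fun p => p.1 ^ 2)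
    rw [Finset.inter_comm S t] at h4
    rw [← h3, ← h4]
    exact Nat.add_lt_add_left (h1.trans_le h2) _
  have e : (fun τ => (mpol N τ).coeff ((idx N).card - S.card)) =
      fun τ => ∑ t ∈ (idx N).powersetCard S.card, ∏ p ∈ t, -jm (hm N p) τ :=
    funext fun τ => mtN1_coeff N S.card (Finset.card_le_card hS) τ
  have hSm : S ∈ (idx N).powersetCard S.card := Finset.mem_powersetCard.2 ⟨hS, rfl⟩
  have e2 : ∏ p ∈ S, u p =
      ∑ t ∈ (idx N).powersetCard S.card, if t = S then ∏ p ∈ S, u p else 0 := by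
    rw [Finset.sum_ite_eq' _ S (fun _ => ∏ p ∈ S, u p), if_pos hSm]
  rw [e, e2]
  apply mtN1_sum
  intro t ht
  have h1 := hu t (Finset.mem_powersetCard.1 ht).1
  by_cases h2 : t = S
  · rw [if_pos h2, ← h2]
    exact h1
  · rw [if_neg h2]
    exact mtN1_raise h1 (hlt t ht h2)

/-- The coefficients of `mpol N` are polynomials in `j`, and the Newton polygon. -/
def NewtonData (N : ℕ) (e : ℕ → Polynomial Oalg) : Prop :=
  (∀ k τ, (mpol N τ).coeff k = Polynomial.aeval (jfun τ) (e k)) ∧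
  (∀ k ≤ (idx N).card, ∃ S ⊆ idx N, S.card = k ∧
    (e ((idx N).card - k)).natDegree * N ≤ ∑ p ∈ S, p.1 ^ 2) ∧
  ∀ S ⊆ idx N, (∀ p ∈ idx N, p ∉ S → ∀ q ∈ S, p.1 < q.1) →
    ((e ((idx N).card - S.card)).natDegree * N = ∑ p ∈ S, p.1 ^ 2 ∧
      IsUnit (e ((idx N).card - S.card)).leadingCoeff)

/-- `wp 1 τ` tends to `0`. -/
theorem mtN3_wp : Filter.Tendsto (fun τ : ℍ => ‖wp 1 τ‖) atImInfty (nhds 0) := by
  have h1 : Filter.Tendsto (fun τ : ℍ => 2 * Real.pi * τ.im / ((1 : ℕ) : ℝ)) atImInfty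
      Filter.atTop := by
    simp only [Nat.cast_one, div_one]
    exact Filter.Tendsto.const_mul_atTop (by positivity) Filter.tendsto_comap
  have h2 := Real.tendsto_exp_neg_atTop_nhds_zero.comp h1
  refine h2.congr (fun τ => ?_)
  rw [Function.comp_apply, zp1_norm_wp]

/-- A polynomial in `j` is determined by the function. -/
theorem mtN3_unique (P Q : Polynomial Oalg)
    (h : ∀ τ : ℍ, Polynomial.aeval (jfun τ) P = Polynomial.aeval (jfun τ) Q) : P = Q := by
  by_contra hne
  have hinj : Function.Injective (algebraMap Oalg ℂ) := Subtype.val_injective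
  have hR : (P - Q).map (algebraMap Oalg ℂ) ≠ 0 := by
    rw [Ne, Polynomial.map_eq_zero_iff hinj, sub_eq_zero]
    exact hne
  obtain ⟨C, hC⟩ : ∃ C : ℝ, ∀ x ∈ ((P - Q).map (algebraMap Oalg ℂ)).roots.toFinset, ‖x‖ ≤ C := by
    obtain ⟨C, hC⟩ := (((P - Q).map (algebraMap Oalg ℂ)).roots.toFinset.image
      (fun x => ‖x‖)).bddAbove
    exact ⟨C, fun x hx => hC (by simpa using ⟨x, by simpa using hx, rfl⟩)⟩
  have hb : ∀ τ : ℍ, ‖jfun τ‖ ≤ C := by
    intro τ
    apply hC
    rw [Multiset.mem_toFinset, Polynomial.mem_roots hR, Polynomial.IsRoot.def,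
      Polynomial.eval_map, ← Polynomial.aeval_def, map_sub, h τ, sub_self]
  have ht := intQ_tendsto one_pos intQ_jfun
  have h0 : Filter.Tendsto (fun τ : ℍ => wp 1 τ ^ 1 * jfun τ) atImInfty (nhds 0) := by
    have h1 : Filter.Tendsto (fun τ : ℍ => ‖wp 1 τ‖ * C) atImInfty (nhds 0) := by
      have := mtN3_wp.mul_const C
      rwa [zero_mul] at this
    refine squeeze_zero_norm (fun τ => ?_) h1
    rw [pow_one, norm_mul]
    exact mul_le_mul_of_nonneg_left (hb τ) (norm_nonneg _)
  exact zero_ne_one (tendsto_nhds_unique h0 ht)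

/-- From N1, N2, `inv_poly`, `mpol_coeff_inv`, `mpol_coeff_hol`; a polynomial in `j` is
determined by the function (`j` takes infinitely many values: see how `diag_poly` or `inv_poly`
obtain the degree; in any case choose for every `k` one polynomial with the properties that N1
gives, and show that another one with the properties of N2 is equal to it, or that the function
determines the polynomial). -/
theorem newton_data (N : ℕ) (hN : 0 < N) : ∃ e : ℕ → Polynomial Oalg, NewtonData N e := by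
  have key : ∀ k : ℕ, ∃ P : Polynomial Oalg,
      (∀ τ, (mpol N τ).coeff k = Polynomial.aeval (jfun τ) P) ∧
      (k ≤ (idx N).card → ∃ S ⊆ idx N, S.card = (idx N).card - k ∧
        P.natDegree * N ≤ ∑ p ∈ S, p.1 ^ 2) := by
    intro k
    by_cases hk : k ≤ (idx N).card
    · obtain ⟨S, hS, hc, u, hu⟩ := coeff_le N hN ((idx N).card - k) (Nat.sub_le _ _)
      rw [Nat.sub_sub_self hk] at hu
      obtain ⟨P, h1, h2, -⟩ := inv_poly hN _ u _ hu (mpol_coeff_inv N hN k) (mpol_coeff_hol N hN k)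
      exact ⟨P, h1, fun _ => ⟨S, hS, hc, h2⟩⟩
    · obtain ⟨P, hP⟩ := mpol_coeff_poly N hN k
      exact ⟨P, hP, fun h => absurd h hk⟩
  choose e he1 he2 using key
  refine ⟨e, fun k τ => he1 k τ, ?_, ?_⟩
  · intro k hk
    obtain ⟨S, hS, hc, h⟩ := he2 ((idx N).card - k) (Nat.sub_le _ _)
    rw [Nat.sub_sub_self hk] at hc
    exact ⟨S, hS, hc, h⟩
  · intro S hS hlt
    obtain ⟨u, ⟨k, hk, huk⟩, hu⟩ := coeff_eq N hN S hS hlt
    obtain ⟨P, h1, h2, h3⟩ := inv_poly hN _ u _ hu (mpol_coeff_inv N hN _)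
      (mpol_coeff_hol N hN _)
    have hPe : e ((idx N).card - S.card) = P :=
      mtN3_unique _ _ (fun τ => (he1 _ τ).symm.trans (h1 τ))
    rw [hPe]
    have hune : u ≠ 0 := by
      intro h0
      rw [h0, zero_pow hk.ne'] at huk
      exact zero_ne_one huk
    obtain ⟨hdvd, hcoef⟩ := h3 hune
    have hnd : P.natDegree = (∑ p ∈ S, p.1 ^ 2) / N := by
      apply le_antisymm
      · rw [Nat.le_div_iff_mul_le hN]
        exact h2
      · apply Polynomial.le_natDegree_of_ne_zero
        intro h0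
        rw [h0] at hcoef
        exact hune (by rw [← hcoef]; rfl)
    refine ⟨by rw [hnd]; exact Nat.div_mul_cancel hdvd, ?_⟩
    have hlc : (P.leadingCoeff : Oalg) ^ k = 1 := by
      apply Subtype.ext
      rw [Polynomial.leadingCoeff, hnd]
      push_cast
      rw [hcoef, huk]
    exact IsUnit.of_pow_eq_one hlc hk.ne'

private theorem mtN4_prod_lt {Γ : Type*} [LinearOrderedCommGroupWithZero Γ] {ι : Type*}
    (I : Finset ι) (a b : ι → Γ) (hab : ∀ i ∈ I, a i ≤ b i) (hb : ∀ i ∈ I, 0 < b i)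
    (hj : ∃ j ∈ I, a j < b j) : ∏ i ∈ I, a i < ∏ i ∈ I, b i := by
  classical
  obtain ⟨j, hjI, hj⟩ := hj
  rw [← Finset.mul_prod_erase I a hjI, ← Finset.mul_prod_erase I b hjI]
  have h1 : ∏ i ∈ I.erase j, a i ≤ ∏ i ∈ I.erase j, b i :=
    Finset.prod_le_prod' fun i hi => hab i (Finset.mem_of_mem_erase hi)
  have h2 : (0 : Γ) < ∏ i ∈ I.erase j, b i := by
    rw [zero_lt_iff, Finset.prod_ne_zero_iff]
    intro i hi
    exact (hb i (Finset.mem_of_mem_erase hi)).ne'
  calc a j * ∏ i ∈ I.erase j, a i ≤ a j * ∏ i ∈ I.erase j, b i := mul_le_mul' le_rfl h1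
    _ < b j * ∏ i ∈ I.erase j, b i := mul_lt_mul_of_pos_right hj h2

private theorem mtN4_prod_ite {Γ : Type*} [LinearOrderedCommGroupWithZero Γ] {ι : Type*}
    [DecidableEq ι] (I : Finset ι) (w : ι → Γ) (Z : Γ) (hw : ∀ i ∈ I, w i ≠ Z)
    (R : Finset ι) (hR : R ⊆ I) (hRS : R ≠ I.filter fun i => Z < w i) :
    (∏ i ∈ R, w i) * Z ^ (I.card - R.card) <
      (∏ i ∈ I.filter fun i => Z < w i, w i) *
        Z ^ (I.card - (I.filter fun i => Z < w i).card) := by
  have key : ∀ T ⊆ I, (∏ i ∈ T, w i) * Z ^ (I.card - T.card) =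
      ∏ i ∈ I, (if i ∈ T then w i else Z) := by
    intro T hT
    rw [Finset.prod_ite]
    congr 1
    · congr 1
      ext i
      simp only [Finset.mem_filter]
      exact ⟨fun h => ⟨hT h, h⟩, fun h => h.2⟩
    · rw [Finset.prod_const]
      congr 1
      rw [← Finset.card_sdiff_of_subset hT]
      congr 1
      ext i
      simp only [Finset.mem_filter, Finset.mem_sdiff]
  rw [key R hR, key _ (Finset.filter_subset _ _)]
  refine mtN4_prod_lt I _ _ ?_ ?_ ?_
  · intro i hi
    by_cases h1 : Z < w i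
    · have : i ∈ I.filter fun i => Z < w i := Finset.mem_filter.2 ⟨hi, h1⟩
      rw [if_pos this]
      split_ifs
      · exact le_rfl
      · exact h1.le
    · have : i ∉ I.filter fun i => Z < w i := fun h => h1 (Finset.mem_filter.1 h).2
      rw [if_neg this]
      split_ifs
      · exact not_lt.1 h1
      · exact le_rfl
  · intro i hi
    by_cases h1 : Z < w i
    · have : i ∈ I.filter fun i => Z < w i := Finset.mem_filter.2 ⟨hi, h1⟩
      rw [if_pos this]
      exact lt_of_le_of_lt zero_le h1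
    · have : i ∉ I.filter fun i => Z < w i := fun h => h1 (Finset.mem_filter.1 h).2
      rw [if_neg this]
      exact lt_of_le_of_lt zero_le (lt_of_le_of_ne (not_lt.1 h1) (hw i hi))
  · by_contra hcon
    push Not at hcon
    apply hRS
    ext i
    rw [Finset.mem_filter]
    constructor
    · intro hiR
      refine ⟨hR hiR, ?_⟩
      by_contra h1
      have h2 : i ∉ I.filter fun i => Z < w i := fun h => h1 (Finset.mem_filter.1 h).2
      have h3 := hcon i (hR hiR)
      rw [if_neg h2, if_pos hiR] at h3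
      exact hw i (hR hiR) (le_antisymm (not_lt.1 h1) h3)
    · rintro ⟨hiI, h1⟩
      by_contra hiR
      have h2 : i ∈ I.filter fun i => Z < w i := Finset.mem_filter.2 ⟨hiI, h1⟩
      have h3 := hcon i hiI
      rw [if_pos h2, if_neg hiR] at h3
      exact absurd h1 (not_lt.2 h3)

private theorem mtN4_int (L : Type) [Field L] [Algebra ℂ L] (V : ValuationSubring L) (c : Oalg) :
    V.valuation ((algebraMap ℂ L).comp (algebraMap Oalg ℂ) c) ≤ 1 := by
  rw [ValuationSubring.valuation_le_one_iff]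
  have h1 : IsIntegral ℤ ((c : ℂ)) := c.2
  have h2 : IsIntegral ℤ (algebraMap ℂ L (c : ℂ)) := h1.map (algebraMap ℂ L).toIntAlgHom
  have h3 : IsIntegral V (algebraMap ℂ L (c : ℂ)) := h2.tower_top
  obtain ⟨z, hz⟩ := IsIntegrallyClosed.isIntegral_iff.1 h3
  have : (algebraMap ℂ L).comp (algebraMap Oalg ℂ) c = (z : L) := by
    rw [RingHom.comp_apply]
    exact hz.symm
  rw [this]
  exact z.2

private theorem mtN4_unit (L : Type) [Field L] [Algebra ℂ L] (V : ValuationSubring L) (c : Oalg)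
    (hc : IsUnit c) : V.valuation ((algebraMap ℂ L).comp (algebraMap Oalg ℂ) c) = 1 := by
  obtain ⟨u, rfl⟩ := hc
  have h1 := mtN4_int L V (u : Oalg)
  have h2 := mtN4_int L V ((u⁻¹ : Oalgˣ) : Oalg)
  have h3 : V.valuation ((algebraMap ℂ L).comp (algebraMap Oalg ℂ) (u : Oalg)) *
      V.valuation ((algebraMap ℂ L).comp (algebraMap Oalg ℂ) ((u⁻¹ : Oalgˣ) : Oalg)) = 1 := by
    rw [← map_mul, ← map_mul, Units.mul_inv, map_one, map_one]
  apply le_antisymm h1
  rw [← h3]
  exact (mul_le_mul' le_rfl h2).trans (by rw [mul_one])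

private theorem mtN4_eval_le (L : Type) [Field L] [Algebra ℂ L] (V : ValuationSubring L) (x : L)
    (hx : 1 < V.valuation x) (P : Polynomial Oalg) :
    V.valuation (Polynomial.eval₂ ((algebraMap ℂ L).comp (algebraMap Oalg ℂ)) x P) ≤
      V.valuation x ^ P.natDegree := by
  rw [Polynomial.eval₂_eq_sum_range]
  apply Valuation.map_sum_le
  intro i hi
  rw [map_mul, map_pow]
  calc _ ≤ 1 * V.valuation x ^ i := mul_le_mul' (mtN4_int L V _) le_rfl
    _ = V.valuation x ^ i := one_mul _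
    _ ≤ _ := pow_le_pow_right' hx.le (Nat.lt_succ_iff.1 (Finset.mem_range.1 hi))

private theorem mtN4_eval_eq (L : Type) [Field L] [Algebra ℂ L] (V : ValuationSubring L) (x : L)
    (hx : 1 < V.valuation x) (P : Polynomial Oalg) (hP : IsUnit P.leadingCoeff) :
    V.valuation (Polynomial.eval₂ ((algebraMap ℂ L).comp (algebraMap Oalg ℂ)) x P) =
      V.valuation x ^ P.natDegree := by
  have hX0 : (0 : V.ValueGroup) < V.valuation x := lt_trans zero_lt_one hx
  rw [Polynomial.eval₂_eq_sum_range, Finset.sum_range_succ]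
  have h1 : V.valuation ((algebraMap ℂ L).comp (algebraMap Oalg ℂ) (P.coeff P.natDegree) *
      x ^ P.natDegree) = V.valuation x ^ P.natDegree := by
    rw [map_mul, map_pow, Polynomial.coeff_natDegree, mtN4_unit L V _ hP, one_mul]
  rw [Valuation.map_add_eq_of_lt_right, h1]
  rw [h1]
  apply Valuation.map_sum_lt
  · exact (pow_pos hX0 _).ne'
  · intro i hi
    rw [map_mul, map_pow]
    calc _ ≤ 1 * V.valuation x ^ i := mul_le_mul' (mtN4_int L V _) le_rfl
      _ = V.valuation x ^ i := one_mul _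
      _ < _ := pow_lt_pow_right₀ hx (Finset.mem_range.1 hi)

/-- Let `X = V.valuation x > 1` and `Y = V.valuation y`, and suppose that `Y ^ N` is not
`X ^ (p.1 ^ 2)` for any `p ∈ idx N`. Let `S` be the set of the `p ∈ idx N` with
`Y ^ N < X ^ (p.1 ^ 2)` and `k = S.card`. For all `R ⊆ idx N`, `R ≠ S`:
`X ^ (∑ p ∈ R, p.1 ^ 2) * Y ^ (N * (ψ - R.card)) < X ^ (∑ p ∈ S, p.1 ^ 2) * Y ^ (N * (ψ - k))`
(compare the factors `max (X ^ (p.1 ^ 2)) (Y ^ N)` for all `p`). Hence the term `ψ - k` of the sum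
has a larger value than all other terms and the sum is not zero. (If `y = 0` then `S = idx N` and
the constant term has nonzero value; the inequality above holds too, with care.) -/
theorem newton (N : ℕ) (hN : 0 < N) (e : ℕ → Polynomial Oalg) (he : NewtonData N e)
    (L : Type) [Field L] [Algebra ℂ L] (V : ValuationSubring L) (x y : L)
    (h : ∑ k ∈ Finset.range ((idx N).card + 1),
      Polynomial.eval₂ ((algebraMap ℂ L).comp (algebraMap Oalg ℂ)) x (e k) * y ^ k = 0)
    (hx : 1 < V.valuation x) : ∃ A : ℕ, V.valuation y ^ N = V.valuation x ^ (A ^ 2) := by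
  classical
  by_contra hcon
  push Not at hcon
  have hX0 : (0 : V.ValueGroup) < V.valuation x := lt_trans zero_lt_one hx
  set X := V.valuation x with hX
  set Y := V.valuation y with hY
  set φ := (algebraMap ℂ L).comp (algebraMap Oalg ℂ) with hφ
  have hw : ∀ p ∈ idx N, X ^ (p.1 ^ 2) ≠ Y ^ N := fun p _ h => hcon p.1 h.symm
  have hprod : ∀ T : Finset (ℕ × ℕ), ∏ p ∈ T, X ^ (p.1 ^ 2) = X ^ (∑ p ∈ T, p.1 ^ 2) :=
    fun T => Finset.prod_pow_eq_pow_sum _ _ _
  obtain ⟨S, hSdef⟩ : ∃ S, S = (idx N).filter fun p => Y ^ N < X ^ (p.1 ^ 2) := ⟨_, rfl⟩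
  have hSI : S ⊆ idx N := by rw [hSdef]; exact Finset.filter_subset _ _
  have hScard : S.card ≤ (idx N).card := Finset.card_le_card hSI
  obtain ⟨hS1, hS2⟩ := he.2.2 S hSI (by
    intro p hp hpS q hq
    rw [hSdef] at hpS hq
    have h1 : ¬ Y ^ N < X ^ (p.1 ^ 2) := fun h => hpS (Finset.mem_filter.2 ⟨hp, h⟩)
    have h2 := (Finset.mem_filter.1 hq).2
    have h3 : X ^ (p.1 ^ 2) < X ^ (q.1 ^ 2) := lt_of_le_of_lt (not_lt.1 h1) h2
    have h4 : p.1 ^ 2 < q.1 ^ 2 := (pow_lt_pow_iff_right₀ hx).1 h3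
    exact lt_of_pow_lt_pow_left₀ 2 (Nat.zero_le _) h4)
  -- the values of the terms
  have hterm : ∀ j, V.valuation (Polynomial.eval₂ φ x (e j) * y ^ j) ^ N =
      V.valuation (Polynomial.eval₂ φ x (e j)) ^ N * (Y ^ N) ^ j := by
    intro j
    rw [map_mul, map_pow, mul_pow, ← pow_mul, ← pow_mul, mul_comm j N]
  have hS3 : V.valuation (Polynomial.eval₂ φ x (e ((idx N).card - S.card)) *
      y ^ ((idx N).card - S.card)) ^ N =
      (∏ p ∈ S, X ^ (p.1 ^ 2)) * (Y ^ N) ^ ((idx N).card - S.card) := by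
    rw [hterm, mtN4_eval_eq L V x hx _ hS2, ← pow_mul, hS1, hprod]
  have hlt : ∀ j ∈ (Finset.range ((idx N).card + 1)).erase ((idx N).card - S.card),
      V.valuation (Polynomial.eval₂ φ x (e j) * y ^ j) <
      V.valuation (Polynomial.eval₂ φ x (e ((idx N).card - S.card)) *
      y ^ ((idx N).card - S.card)) := by
    intro j hj
    rw [Finset.mem_erase, Finset.mem_range] at hj
    obtain ⟨R, hR, hRc, hRd⟩ := he.2.1 ((idx N).card - j) (Nat.sub_le _ _)
    have hj2 : (idx N).card - ((idx N).card - j) = j := by omega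
    rw [hj2] at hRd
    have hRS : R ≠ S := by
      rintro rfl
      apply hj.1
      omega
    have hRj : (idx N).card - R.card = j := by omega
    have h1 : V.valuation (Polynomial.eval₂ φ x (e j) * y ^ j) ^ N ≤
        (∏ p ∈ R, X ^ (p.1 ^ 2)) * (Y ^ N) ^ ((idx N).card - R.card) := by
      rw [hterm, hRj, hprod]
      apply mul_le_mul' _ le_rfl
      calc V.valuation (Polynomial.eval₂ φ x (e j)) ^ N ≤ (X ^ (e j).natDegree) ^ N :=
            pow_le_pow_left' (mtN4_eval_le L V x hx _) N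
        _ = X ^ ((e j).natDegree * N) := (pow_mul _ _ _).symm
        _ ≤ _ := pow_le_pow_right' hx.le hRd
    have h2 := mtN4_prod_ite (idx N) (fun p => X ^ (p.1 ^ 2)) (Y ^ N) hw R hR
      (by rw [← hSdef]; exact hRS)
    rw [← hSdef] at h2
    have h3 := lt_of_le_of_lt h1 h2
    rw [← hS3] at h3
    exact lt_of_pow_lt_pow_left₀ N zero_le h3
  have hpos : V.valuation (Polynomial.eval₂ φ x (e ((idx N).card - S.card)) *
      y ^ ((idx N).card - S.card)) ≠ 0 := by
    intro h0
    have h1 := hS3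
    rw [h0, zero_pow hN.ne'] at h1
    rcases mul_eq_zero.1 h1.symm with h2 | h2
    · rw [hprod] at h2
      exact (pow_pos hX0 _).ne' h2
    · by_cases hc : (idx N).card - S.card = 0
      · rw [hc, pow_zero] at h2
        exact one_ne_zero h2
      · have hYN : Y ^ N = 0 := (pow_eq_zero_iff hc).1 h2
        apply hc
        have : S = idx N := by
          rw [hSdef]
          apply Finset.filter_true_of_mem
          intro p _
          rw [hYN]
          exact pow_pos hX0 _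
        rw [this]
        exact Nat.sub_self _
  have hmem : (idx N).card - S.card ∈ Finset.range ((idx N).card + 1) := by
    rw [Finset.mem_range]; omega
  rw [← Finset.add_sum_erase _ _ hmem] at h
  have h5 := Valuation.map_sum_lt V.valuation hpos hlt
  have h6 := Valuation.map_add_eq_of_lt_right V.valuation h5
  have h7 := congrArg V.valuation h
  rw [add_comm] at h7
  rw [h6, map_zero] at h7
  exact hpos h7

end MT38
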