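import Mathlib
import Pool.Agent.LibMT38.B2
import Pool.Agent.LibMT38.N

/-! # The modular equation at the generic point -/

namespace MT38

open ZP38 UpperHalfPlane

theorem mpol_natDegree (N : ℕ) (τ : ℍ) : (mpol N τ).natDegree = (idx N).card := by
  rw [mpol, Polynomial.natDegree_prod_of_monic _ _ fun p _ => Polynomial.monic_X_sub_C _]
  simp

theorem isog_L {T L : Type} [Field L] [Algebra ℂ L] (φ : (T → ℂ) →ₐ[ℂ] L) (X Y : T → ℂ)
    (A B : Matrix (Fin 2) (Fin 2) ℤ) (hA : 0 < A.det) (hB : 0 < B.det) (N : ℕ)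
    (hN : (N : ℤ) = A.det * B.det) (h : ∀ z, ∃ τ : ℍ, X z = jm A τ ∧ Y z = jm B τ)
    (e : ℕ → Polynomial Oalg) (he : NewtonData N e) :
    ∑ k ∈ Finset.range ((idx N).card + 1),
      Polynomial.eval₂ ((algebraMap ℂ L).comp (algebraMap Oalg ℂ)) (φ X) (e k) * (φ Y) ^ k = 0 := by
  let ι₁ : Oalg →+* (T → ℂ) := (algebraMap ℂ (T → ℂ)).comp (algebraMap Oalg ℂ)
  have h0 : ∑ k ∈ Finset.range ((idx N).card + 1), Polynomial.eval₂ ι₁ X (e k) * Y ^ k = 0 := by
    funext z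
    obtain ⟨τ, hX, hY⟩ := h z
    have h1 := isog_rel A B hA hB N hN τ
    rw [Polynomial.eval_eq_sum_range, mpol_natDegree] at h1
    rw [Finset.sum_apply, Pi.zero_apply, ← h1]
    refine Finset.sum_congr rfl fun k _ => ?_
    rw [Pi.mul_apply, Pi.pow_apply, hY]
    congr 1
    rw [he.1 k (ap A τ), ← jm_eq, ← hX]
    have h2 := Polynomial.hom_eval₂ (e k) ι₁ (Pi.evalRingHom (fun _ : T => ℂ) z) X
    change (Pi.evalRingHom (fun _ : T => ℂ) z) (Polynomial.eval₂ ι₁ X (e k)) = _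
    rw [h2]
    rfl
  have h2 := congrArg φ h0
  rw [map_sum, map_zero] at h2
  rw [← h2]
  refine Finset.sum_congr rfl fun k _ => ?_
  rw [map_mul, map_pow]
  congr 1
  have h3 := Polynomial.hom_eval₂ (e k) ι₁ (φ : (T → ℂ) →+* L) X
  have h4 : (φ : (T → ℂ) →+* L).comp ι₁ = (algebraMap ℂ L).comp (algebraMap Oalg ℂ) := by
    ext x
    change φ (algebraMap ℂ (T → ℂ) x) = algebraMap ℂ L x
    exact φ.commutes _
  rw [h4] at h3
  exact h3.symm

end MT38
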