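import Mathlib
import Pool.Agent.LibMT38.Stmt
import Pool.Agent.LibZP38.T5
import Pool.Agent.LibTT45.V

/-! # Special values are integral -/

namespace MT38

open ZP38 UpperHalfPlane

theorem special_val {L : Type} [Field L] [Algebra ℂ L] (B : Subring ℂ) (V : ValuationSubring L)
    (hB : ∀ x ∈ B, V.valuation (algebraMap ℂ L x) ≤ 1) (s : OnePoint ℂ)
    (hs : SpecialValue B s) :
    s = OnePoint.infty ∨ ∃ x : ℂ, s = (x : ℂ) ∧ V.valuation (algebraMap ℂ L x) ≤ 1 := by
  rcases hs with h | ⟨t, ht, h⟩ | ⟨x, hx, h⟩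
  · exact Or.inl h
  · refine Or.inr ⟨_, h, ?_⟩
    exact Pool.Agent.LibTT45.val_integral V _
      ((cm_integral ht).map (algebraMap ℂ L).toIntAlgHom)
  · exact Or.inr ⟨x, h, hB x hx⟩

end MT38
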