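import Mathlib
import Pool.Agent.LibMT38.Stmt
import Pool.Agent.LibMT38.B1
import Pool.Agent.LibMT38.A3
import Pool.Agent.LibMT38.A7
import Pool.Agent.LibTT45.B
import Pool.Agent.LibTT45.R

/-! # The choice of the class -/

namespace MT38

open MvPolynomial UpperHalfPlane ZP38

/-- The data from which the class is built. -/
structure Data (a b : ℕ) (Y : Set (Pt a b)) (F₀ : Finset ℂ) where
  P : Finset (Fin a ⊕ Fin b) → MvPolynomial (Fin a ⊕ Fin b) ℂ
  c : Fin a ⊕ Fin b → ℕ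
  hP : ∀ I : Finset (Fin a ⊕ Fin b), I.card = zdim Y + 1 →
    P I ≠ 0 ∧ (P I).vars ⊆ I ∧ ∀ z ∈ Y, aeval (coord z) (P I) = 0
  hc0 : ∀ i, 0 < c i
  hc : ∀ I : Finset (Fin a ⊕ Fin b), I.card = zdim Y + 1 → ∀ S : Finset (Fin a ⊕ Fin b),
    ∀ γ ∈ (P I).support, coeff (off S γ) (pev S (fun i => (c i : ℂ)) (P I)) ≠ 0
  N : ℕ
  hN : 0 < N
  hV : ∀ p : ℕ, p.Prime → ¬ p ∣ N → ∃ V : ValuationSubring ℂ, V.valuation (p : ℂ) < 1 ∧
    (∀ i, V.valuation (c i : ℂ) = 1) ∧ (∀ x ∈ Bring (F₀ : Set ℂ), V.valuation x ≤ 1) ∧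
    ∀ I : Finset (Fin a ⊕ Fin b), I.card = zdim Y + 1 →
      (∀ γ ∈ (P I).support, V.valuation (coeff γ (P I)) = 1) ∧
      ∀ S : Finset (Fin a ⊕ Fin b), ∀ α ∈ (pev S (fun i => (c i : ℂ)) (P I)).support,
        V.valuation (coeff α (pev S (fun i => (c i : ℂ)) (P I))) = 1

theorem bring_le (V : ValuationSubring ℂ) (T : Set ℂ) (h : ∀ x ∈ T, x ∈ V) :
    ∀ x ∈ Bring T, V.valuation x ≤ 1 := by
  intro x hx
  have hsub : ∀ y ∈ Algebra.adjoin ℤ T, y ∈ V := by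
    intro y hy
    induction hy using Algebra.adjoin_induction with
    | mem y hy => exact h y hy
    | algebraMap r =>
      rw [eq_intCast]
      exact intCast_mem V r
    | add x y _ _ hx hy => exact V.add_mem _ _ hx hy
    | mul x y _ _ hx hy => exact V.mul_mem _ _ hx hy
  obtain ⟨P, hP, hP0⟩ : IsIntegral (Algebra.adjoin ℤ T) x := hx
  let f : (Algebra.adjoin ℤ T) →+* V :=
    { toFun := fun y => ⟨y.1, hsub y.1 y.2⟩
      map_one' := rfl
      map_zero' := rfl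
      map_mul' := fun _ _ => rfl
      map_add' := fun _ _ => rfl }
  have h1 : IsIntegral V x := by
    refine ⟨P.map f, hP.map f, ?_⟩
    rw [Polynomial.eval₂_map]
    exact hP0
  obtain ⟨y, hy⟩ := IsIntegrallyClosed.isIntegral_iff.1 h1
  rw [ValuationSubring.valuation_le_one_iff, ← hy]
  exact y.2

theorem exists_data (a b : ℕ) (Y : Set (Pt a b)) (F₀ : Finset ℂ) :
    Nonempty (Data a b Y F₀) := by
  classical
  have hex : ∀ I : Finset (Fin a ⊕ Fin b), ∃ P : MvPolynomial (Fin a ⊕ Fin b) ℂ,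
      I.card = zdim Y + 1 → P ≠ 0 ∧ P.vars ⊆ I ∧ ∀ z ∈ Y, aeval (coord z) P = 0 := by
    intro I
    by_cases hI : I.card = zdim Y + 1
    · obtain ⟨P, h1, h2, h3⟩ := exists_rel Y I (fun h => by have := le_zdim h; omega)
      exact ⟨P, fun _ => ⟨h1, h2, h3⟩⟩
    · exact ⟨0, fun h => absurd h hI⟩
  choose P hP using hex
  obtain ⟨c, hc0, hc⟩ := exists_c (Finset.univ.image P)
  let cc : Fin a ⊕ Fin b → ℂ := fun i => (c i : ℂ)
  let C : Finset ℂ := ((Finset.univ.biUnion fun I => (P I).support.image fun α => coeff α (P I)) ∪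
    (Finset.univ.biUnion fun I => Finset.univ.biUnion fun S : Finset (Fin a ⊕ Fin b) =>
      (pev S cc (P I)).support.image fun α => coeff α (pev S cc (P I)))) ∪
    (F₀.filter (fun x => x ≠ 0) ∪ Finset.univ.image cc)
  have hC : ∀ x ∈ C, x ≠ 0 := by
    intro x hx
    simp only [C, Finset.mem_union, Finset.mem_biUnion, Finset.mem_image, Finset.mem_univ,
      true_and, Finset.mem_filter] at hx
    rcases hx with (⟨I, α, hα, rfl⟩ | ⟨I, S, α, hα, rfl⟩) | (⟨-, h0⟩ | ⟨i, rfl⟩)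
    · exact mem_support_iff.1 hα
    · exact mem_support_iff.1 hα
    · exact h0
    · exact Nat.cast_ne_zero.2 (hc0 i).ne'
  obtain ⟨N, hN, hbase⟩ := Pool.Agent.LibTT45.base_val C hC
  refine ⟨⟨P, c, hP, hc0, fun I _ S γ hγ => hc _ (Finset.mem_image_of_mem _ (Finset.mem_univ _))
    S γ hγ, N, hN, fun p hp hpN => ?_⟩⟩
  obtain ⟨V, hV, hVC⟩ := hbase p hp hpN
  refine ⟨V, hV, fun i => ?_, bring_le V _ fun x hx => ?_, fun I _ => ⟨fun γ hγ => ?_, fun S α hα => ?_⟩⟩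
  · apply hVC
    simp only [C, Finset.mem_union, Finset.mem_biUnion, Finset.mem_image, Finset.mem_univ,
      true_and]
    exact Or.inr (Or.inr ⟨i, rfl⟩)
  · by_cases h0 : x = 0
    · rw [h0]
      exact V.zero_mem
    · rw [← ValuationSubring.valuation_le_one_iff]
      refine (hVC x ?_).le
      simp only [C, Finset.mem_union, Finset.mem_biUnion, Finset.mem_image, Finset.mem_univ,
        true_and, Finset.mem_filter]
      exact Or.inr (Or.inl ⟨hx, h0⟩)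
  · apply hVC
    simp only [C, Finset.mem_union, Finset.mem_biUnion, Finset.mem_image, Finset.mem_univ,
      true_and]
    exact Or.inl (Or.inl ⟨I, γ, hγ, rfl⟩)
  · apply hVC
    simp only [C, Finset.mem_union, Finset.mem_biUnion, Finset.mem_image, Finset.mem_univ,
      true_and]
    exact Or.inl (Or.inr ⟨I, S, α, hα, rfl⟩)

variable {a b : ℕ} {Y : Set (Pt a b)} {F₀ : Finset ℂ}

open Classical in
/-- The finite set of exponents of the tropical relations. -/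
noncomputable def Data.SS (D : Data a b Y F₀) : Finset (Fin a ⊕ Fin b → ℤ) :=
  Finset.univ.biUnion fun I => Finset.univ.biUnion fun S : Finset (Fin a ⊕ Fin b) =>
    ((pev S (fun i => (D.c i : ℂ)) (D.P I)).support ×ˢ
      (pev S (fun i => (D.c i : ℂ)) (D.P I)).support).image
        fun α => fun i => (α.1 i : ℤ) - (α.2 i : ℤ)

/-- The number of primes. -/
noncomputable def Data.K (D : Data a b Y F₀) : ℕ :=
  (D.SS.powerset ×ˢ (Finset.univ : Finset (Finset (Fin a ⊕ Fin b)))).card * (a + 1) + 1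

/-- The primes. -/
noncomputable def Data.p (D : Data a b Y F₀) (q₀ s : ℕ) : ℕ := Nat.nth Nat.Prime (D.N + q₀ + s)

/-- The weights of the modular coordinates. -/
noncomputable def wt (b k s : ℕ) : ℕ := Nat.nth Nat.Prime (k + b * s)

theorem wt_prime (b k s : ℕ) : (wt b k s).Prime := Nat.prime_nth_prime _

theorem wt_ne {b k s k' s' : ℕ} (hk : k < b) (hk' : k' < b) (h : k ≠ k' ∨ s ≠ s') :
    wt b k s ≠ wt b k' s' := by
  intro heq
  have h1 := Nat.nth_injective Nat.infinite_setOfPred_prime heq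
  have h2 : k = k' := by
    have := congrArg (· % b) h1
    simpa [Nat.add_mul_mod_self_left, Nat.mod_eq_of_lt hk, Nat.mod_eq_of_lt hk'] using this
  subst h2
  rcases h with h | h
  · exact h rfl
  · apply h
    have h3 : b * s = b * s' := by omega
    exact Nat.eq_of_mul_eq_mul_left (by omega) h3

theorem Data.p_prime (D : Data a b Y F₀) (q₀ s : ℕ) : (D.p q₀ s).Prime := Nat.prime_nth_prime _

theorem Data.p_gt (D : Data a b Y F₀) (q₀ s : ℕ) : D.N + q₀ + s < D.p q₀ s := by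
  have := Nat.add_two_le_nth_prime (D.N + q₀ + s)
  unfold Data.p
  omega

theorem Data.p_not_dvd (D : Data a b Y F₀) (q₀ s : ℕ) : ¬ D.p q₀ s ∣ D.N := by
  intro h
  have h1 := Nat.le_of_dvd D.hN h
  have h2 := D.p_gt q₀ s
  omega

theorem Data.p_coprime (D : Data a b Y F₀) (q₀ : ℕ) {s t : ℕ} (hst : s ≠ t) :
    Nat.Coprime (D.p q₀ s) (D.p q₀ t) := by
  rw [Nat.coprime_primes (D.p_prime q₀ s) (D.p_prime q₀ t)]
  intro h
  have := Nat.nth_injective Nat.infinite_setOfPred_prime h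
  omega

/-- The product of the primes with exponents `w s`. -/
noncomputable def Data.pr (D : Data a b Y F₀) (q₀ : ℕ) (w : ℕ → ℕ) : ℕ :=
  ∏ s ∈ Finset.range D.K, D.p q₀ s ^ w s

theorem Data.pr_fac (D : Data a b Y F₀) (q₀ : ℕ) (w : ℕ → ℕ) (s : ℕ) (hs : s < D.K) :
    ∃ G, Nat.Coprime (D.p q₀ s) G ∧ D.pr q₀ w = D.p q₀ s ^ w s * G := by
  refine ⟨∏ t ∈ (Finset.range D.K).erase s, D.p q₀ t ^ w t, ?_, ?_⟩
  · exact Nat.Coprime.prod_right fun t ht =>
      (D.p_coprime q₀ (Finset.ne_of_mem_erase ht).symm).pow_right _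
  · exact (Finset.mul_prod_erase _ _ (Finset.mem_range.2 hs)).symm

theorem Data.pr_pos (D : Data a b Y F₀) (q₀ : ℕ) (w : ℕ → ℕ) : 0 < D.pr q₀ w :=
  Finset.prod_pos fun s _ => pow_pos (D.p_prime q₀ s).pos _

/-- A bound for all weights. -/
noncomputable def Data.E (D : Data a b Y F₀) : ℕ :=
  D.K ^ a + ∑ k ∈ Finset.range b, ∑ s ∈ Finset.range D.K, wt b k s

/-- The modulus. -/
noncomputable def Data.M (D : Data a b Y F₀) (q₀ : ℕ) : ℕ := D.pr q₀ fun _ => D.E + 1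

/-- The class of the translations. -/
noncomputable def Data.g₀ (D : Data a b Y F₀) (q₀ : ℕ) (i : Fin a) : ℕ :=
  D.pr q₀ fun s => s ^ (i : ℕ)

/-- The lower left entry. -/
noncomputable def Data.gam (D : Data a b Y F₀) (q₀ : ℕ) (k : Fin b) : ℕ :=
  D.pr q₀ fun s => wt b k s

/-- The class of the matrices. -/
noncomputable def Data.h₀ (D : Data a b Y F₀) (q₀ : ℕ) (k : Fin b) : Matrix (Fin 2) (Fin 2) ℤ :=
  !![1, -(D.c (Sum.inr k) : ℤ); (D.gam q₀ k : ℤ),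
    (D.M q₀ : ℤ) - (D.c (Sum.inr k) : ℤ) * (D.gam q₀ k : ℤ)]

theorem Data.M_pos (D : Data a b Y F₀) (q₀ : ℕ) : 0 < D.M q₀ := D.pr_pos q₀ _

theorem Data.det_h₀ (D : Data a b Y F₀) (q₀ : ℕ) (k : Fin b) : (D.h₀ q₀ k).det ≠ 0 := by
  have h1 : (D.h₀ q₀ k).det = D.M q₀ := by
    rw [Data.h₀, Matrix.det_fin_two_of]
    ring
  rw [h1]
  exact_mod_cast (D.M_pos q₀).ne'

theorem Data.M_prime (D : Data a b Y F₀) (q₀ q : ℕ) (hq : q.Prime) (h : q ∣ D.M q₀) : q₀ < q := by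
  unfold Data.M Data.pr at h
  obtain ⟨s, -, hs⟩ := (Prime.dvd_finsetProd_iff hq.prime _).1 h
  have h1 := (Nat.prime_dvd_prime_iff_eq hq (D.p_prime q₀ s)).1 (hq.dvd_of_dvd_pow hs)
  have h2 := D.p_gt q₀ s
  omega

theorem Data.M_dvd (D : Data a b Y F₀) (q₀ s w : ℕ) (hs : s < D.K) (hw : w ≤ D.E) :
    D.p q₀ s ^ (w + 1) ∣ D.M q₀ :=
  dvd_trans (pow_dvd_pow _ (by omega))
    (Finset.dvd_prod_of_mem (fun s => D.p q₀ s ^ (D.E + 1)) (Finset.mem_range.2 hs))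

theorem Data.E_g (D : Data a b Y F₀) (i : Fin a) (s : ℕ) (hs : s < D.K) : s ^ (i : ℕ) ≤ D.E := by
  have h1 : s ^ (i : ℕ) ≤ D.K ^ a := by
    calc s ^ (i : ℕ) ≤ D.K ^ (i : ℕ) := Nat.pow_le_pow_left hs.le _
      _ ≤ D.K ^ a := Nat.pow_le_pow_right (Nat.succ_pos _) i.2.le
  unfold Data.E
  omega

theorem Data.E_w (D : Data a b Y F₀) (k : Fin b) (s : ℕ) (hs : s < D.K) : wt b k s ≤ D.E := by
  have h1 : wt b k s ≤ ∑ s ∈ Finset.range D.K, wt b k s :=
    Finset.single_le_sum (f := fun s => wt b k s) (fun _ _ => Nat.zero_le _)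
      (Finset.mem_range.2 hs)
  have h2 : ∑ s ∈ Finset.range D.K, wt b k s ≤
      ∑ k ∈ Finset.range b, ∑ s ∈ Finset.range D.K, wt b k s :=
    Finset.single_le_sum (f := fun k => ∑ s ∈ Finset.range D.K, wt b k s)
      (fun _ _ => Nat.zero_le _) (Finset.mem_range.2 k.2)
  unfold Data.E
  omega

/-- Values of the translations. -/
theorem Data.val_g (D : Data a b Y F₀) (q₀ : ℕ) {L : Type} [Field L] [Algebra ℂ L]
    (V : ValuationSubring L) (s : ℕ) (hs : s < D.K) (hV : V.valuation ((D.p q₀ s : ℕ) : L) < 1)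
    (hB : ∀ x ∈ Bring (F₀ : Set ℂ), V.valuation (algebraMap ℂ L x) ≤ 1)
    (i : Fin a) (x : ℂ) (hx : ∃ u ∈ Bring (F₀ : Set ℂ), x = D.g₀ q₀ i + D.M q₀ * u) :
    V.valuation (algebraMap ℂ L x) = V.valuation ((D.p q₀ s : ℕ) : L) ^ (s ^ (i : ℕ)) := by
  have hchar : CharZero L := charZero_of_injective_algebraMap (algebraMap ℂ L).injective
  obtain ⟨u, hu, rfl⟩ := hx
  obtain ⟨G, hG, hG'⟩ := D.pr_fac q₀ (fun s => s ^ (i : ℕ)) s hs
  rw [Data.g₀, hG', map_add, map_mul, map_natCast, map_natCast]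
  exact Pool.Agent.LibTT45.val_g V (D.p q₀ s) G _ _ hV
    (Nat.cast_ne_zero.2 (D.p_prime q₀ s).ne_zero) hG (D.M_dvd q₀ s _ hs (D.E_g i s hs)) _
    (hB u hu)

/-- Values of the numerator and the denominator. -/
theorem Data.val_h (D : Data a b Y F₀) (q₀ : ℕ) {L : Type} [Field L] [Algebra ℂ L]
    (V : ValuationSubring L) (s : ℕ) (hs : s < D.K) (hV : V.valuation ((D.p q₀ s : ℕ) : L) < 1)
    (hB : ∀ x ∈ Bring (F₀ : Set ℂ), V.valuation (algebraMap ℂ L x) ≤ 1)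
    (k : Fin b) (h : Matrix (Fin 2) (Fin 2) ℂ)
    (hh : ∀ r c, ∃ u ∈ Bring (F₀ : Set ℂ), h r c = D.h₀ q₀ k r c + D.M q₀ * u) (y : L)
    (hy : ¬ V.valuation (y - algebraMap ℂ L (D.c (Sum.inr k) : ℂ)) < 1) :
    V.valuation (algebraMap ℂ L (h 0 0) * y + algebraMap ℂ L (h 0 1)) =
      V.valuation (y - algebraMap ℂ L (D.c (Sum.inr k) : ℂ)) ∧
    V.valuation (algebraMap ℂ L (h 1 0) * y + algebraMap ℂ L (h 1 1)) =
      V.valuation ((D.p q₀ s : ℕ) : L) ^ (wt b k s) *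
        V.valuation (y - algebraMap ℂ L (D.c (Sum.inr k) : ℂ)) := by
  have hchar : CharZero L := charZero_of_injective_algebraMap (algebraMap ℂ L).injective
  obtain ⟨u₁, hu₁, e₁⟩ := hh 0 0
  obtain ⟨u₂, hu₂, e₂⟩ := hh 0 1
  obtain ⟨u₃, hu₃, e₃⟩ := hh 1 0
  obtain ⟨u₄, hu₄, e₄⟩ := hh 1 1
  obtain ⟨G, hG, hG'⟩ := D.pr_fac q₀ (fun s => wt b k s) s hs
  rw [map_natCast] at hy ⊢
  have := val_twist V (D.p q₀ s) (wt b k s) G (D.M q₀) (D.c (Sum.inr k)) hV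
    (Nat.cast_ne_zero.2 (D.p_prime q₀ s).ne_zero) hG (D.M_dvd q₀ s _ hs (D.E_w k s hs))
    _ _ _ _ y (hB u₁ hu₁) (hB u₂ hu₂) (hB u₃ hu₃) (hB u₄ hu₄) hy
  rw [← hG'] at this
  have f₁ : algebraMap ℂ L (h 0 0) = 1 + (D.M q₀ : L) * algebraMap ℂ L u₁ := by
    have h0 : D.h₀ q₀ k 0 0 = 1 := rfl
    rw [e₁, h0, map_add, map_mul, map_natCast, Int.cast_one, map_one]
  have f₂ : algebraMap ℂ L (h 0 1) = -((D.c (Sum.inr k) : ℕ) : L) +
      (D.M q₀ : L) * algebraMap ℂ L u₂ := by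
    have h0 : D.h₀ q₀ k 0 1 = -(D.c (Sum.inr k) : ℤ) := rfl
    rw [e₂, h0, map_add, map_mul, map_natCast, Int.cast_neg, Int.cast_natCast, map_neg,
      map_natCast]
  have f₃ : algebraMap ℂ L (h 1 0) = ((D.gam q₀ k : ℕ) : L) +
      (D.M q₀ : L) * algebraMap ℂ L u₃ := by
    have h0 : D.h₀ q₀ k 1 0 = (D.gam q₀ k : ℤ) := rfl
    rw [e₃, h0, map_add, map_mul, map_natCast, Int.cast_natCast, map_natCast]
  have f₄ : algebraMap ℂ L (h 1 1) = (D.M q₀ : L) - ((D.c (Sum.inr k) : ℕ) : L) *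
      ((D.gam q₀ k : ℕ) : L) + (D.M q₀ : L) * algebraMap ℂ L u₄ := by
    have h0 : D.h₀ q₀ k 1 1 = (D.M q₀ : ℤ) - (D.c (Sum.inr k) : ℤ) * (D.gam q₀ k : ℤ) := rfl
    rw [e₄, h0, map_add, map_mul, map_natCast, Int.cast_sub, Int.cast_mul, Int.cast_natCast,
      Int.cast_natCast, Int.cast_natCast, map_sub, map_mul, map_natCast, map_natCast, map_natCast]
  rw [f₁, f₂, f₃, f₄]
  exact this

end MT38
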