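import Mathlib
import Pool.Agent.LibMT38.C1
import Pool.Agent.LibMT38.A1
import Pool.Agent.LibMT38.A2
import Pool.Agent.LibMT38.A4
import Pool.Agent.LibMT38.A5
import Pool.Agent.LibMT38.B3
import Pool.Agent.LibMT38.B4

/-! # The image of a subset at the generic point -/

namespace MT38

open MvPolynomial UpperHalfPlane ZP38

variable {a b : ℕ} {Y : Set (Pt a b)} {F₀ : Finset ℂ}

theorem Data.exists_V (D : Data a b Y F₀) (q₀ : ℕ) {L : Type} [Field L] [Algebra ℂ L]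
    (ζ : Fin a ⊕ Fin b → L) (J : Finset (Fin a ⊕ Fin b))
    (hJ : AlgebraicIndependent ℂ (fun j : J => ζ j)) (s : ℕ) :
    ∃ V : ValuationSubring L, V.valuation ((D.p q₀ s : ℕ) : L) < 1 ∧
      (∀ i, V.valuation (algebraMap ℂ L (D.c i : ℂ)) = 1) ∧
      (∀ x ∈ Bring (F₀ : Set ℂ), V.valuation (algebraMap ℂ L x) ≤ 1) ∧
      (∀ I : Finset (Fin a ⊕ Fin b), I.card = zdim Y + 1 →
        (∀ γ ∈ (D.P I).support, V.valuation (algebraMap ℂ L (coeff γ (D.P I))) = 1) ∧
        ∀ S : Finset (Fin a ⊕ Fin b), ∀ α ∈ (pev S (fun i => (D.c i : ℂ)) (D.P I)).support,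
          V.valuation (algebraMap ℂ L (coeff α (pev S (fun i => (D.c i : ℂ)) (D.P I)))) = 1) ∧
      ∀ u : Fin a ⊕ Fin b → ℤ, (∀ i, i ∉ J → u i = 0) → ∀ c : ℂ, c ≠ 0 →
        V.valuation (algebraMap ℂ L c * ∏ i ∈ J, ζ i ^ u i) = 1 → u = 0 := by
  obtain ⟨V₁, h1, h2, h3, h4⟩ := D.hV (D.p q₀ s) (D.p_prime q₀ s) (D.p_not_dvd q₀ s)
  obtain ⟨V, hV1, hV2, hV3⟩ := val_ext ζ J hJ V₁
  have key : ∀ c : ℂ, V₁.valuation c = 1 → V.valuation (algebraMap ℂ L c) = 1 := by
    intro c hc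
    have hc0 : c ≠ 0 := by
      rintro rfl
      rw [map_zero] at hc
      exact zero_ne_one hc
    apply le_antisymm (hV1 c hc.le)
    have h5 := hV1 c⁻¹ (by rw [map_inv₀, hc, inv_one])
    rw [map_inv₀, map_inv₀] at h5
    have h6 : V.valuation (algebraMap ℂ L c) ≠ 0 :=
      (Valuation.ne_zero_iff V.valuation).2 ((map_ne_zero (algebraMap ℂ L)).2 hc0)
    exact (inv_le_one₀ (zero_lt_iff.2 h6)).1 h5
  refine ⟨V, ?_, fun i => key _ (h2 i), fun x hx => hV1 _ (h3 x hx), fun I hI => ⟨fun γ hγ =>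
    key _ ((h4 I hI).1 γ hγ), fun S α hα => key _ ((h4 I hI).2 S α hα)⟩, hV3⟩
  have := hV2 _ h1
  rwa [map_natCast] at this

/-- The residue class of an element of infinitely large or small value. -/
theorem not_bad {L : Type} [Field L] (V : ValuationSubring L) (x c : L) (hc : V.valuation c = 1)
    (hx : V.valuation x ≠ 1) : ¬ V.valuation (x - c) < 1 := by
  rcases lt_or_gt_of_ne hx with h | h
  · rw [Valuation.map_sub_swap, sub_eq_add_neg,
      V.valuation.map_add_eq_of_lt_left (by rwa [Valuation.map_neg, hc]), hc]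
    exact lt_irrefl _
  · rw [sub_eq_add_neg, V.valuation.map_add_eq_of_lt_left (by rwa [Valuation.map_neg, hc])]
    exact not_lt.2 h.le

end MT38
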