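import Mathlib
import Pool.Agent.LibMT38.C1
import Pool.Agent.LibMT38.B3
import Pool.Agent.LibMT38.B4

/-! # The modular coordinates -/

namespace MT38

open MvPolynomial UpperHalfPlane ZP38

variable {a b : ℕ} {Y : Set (Pt a b)} {F₀ : Finset ℂ}

theorem mob_infty {h : Matrix (Fin 2) (Fin 2) ℂ} {y : ℂ} (hy : mob h y = OnePoint.infty) :
    den h y = 0 := by
  classical
  unfold mob at hy
  by_contra h0
  rw [if_neg h0] at hy
  exact OnePoint.coe_ne_infty _ hy

theorem mob_coe {h : Matrix (Fin 2) (Fin 2) ℂ} {y x : ℂ} (hy : mob h y = (x : OnePoint ℂ)) :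
    den h y ≠ 0 ∧ (h 0 0 * y + h 0 1) / den h y = x := by
  classical
  unfold mob at hy
  by_cases h0 : den h y = 0
  · rw [if_pos h0] at hy
    exact absurd hy (OnePoint.infty_ne_coe _)
  · rw [if_neg h0] at hy
    exact ⟨h0, OnePoint.coe_injective hy⟩

theorem Data.block_le (D : Data a b Y F₀) (q₀ : ℕ) (g : Fin a → ℂ)
    (h : Fin b → Matrix (Fin 2) (Fin 2) ℂ) (hcl : InClass (Bring (F₀ : Set ℂ)) (D.M q₀) (D.g₀ q₀) (D.h₀ q₀) g h)
    (Z : Set (Pt a b)) (m : ℕ)
    (hm : InSpecial (Bring (F₀ : Set ℂ)) m {w | ∃ z ∈ Z, w = fun k => mob (h k) (z.2 k)}) {L : Type} [Field L]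
    [Algebra ℂ L] (φ : (Z → ℂ) →ₐ[ℂ] L) (V : ℕ → ValuationSubring L)
    (hVp : ∀ s, (V s).valuation ((D.p q₀ s : ℕ) : L) < 1)
    (hVB : ∀ s, ∀ x ∈ Bring (F₀ : Set ℂ), (V s).valuation (algebraMap ℂ L x) ≤ 1)
    (T : Finset ℕ) (hT : ∀ s ∈ T, s < D.K) (hT2 : 1 < T.card) (S₀ : Finset (Fin a ⊕ Fin b))
    (hS : ∀ s ∈ T, ∀ k : Fin b, Sum.inr k ∉ S₀ →
      ¬ (V s).valuation (φ (fun z => coord (z : Pt a b) (Sum.inr k)) -
        algebraMap ℂ L (D.c (Sum.inr k) : ℂ)) < 1) : b - m ≤ S₀.card := by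
  classical
  have hchar : CharZero L := charZero_of_injective_algebraMap (algebraMap ℂ L).injective
  obtain ⟨blk, sv, A, hsv, hA, hw⟩ := hm
  let y : Fin b → Z → ℂ := fun k z => coord (z : Pt a b) (Sum.inr k)
  let nf : Fin b → Z → ℂ := fun k => algebraMap ℂ (Z → ℂ) (h k 0 0) * y k +
    algebraMap ℂ (Z → ℂ) (h k 0 1)
  let df : Fin b → Z → ℂ := fun k => algebraMap ℂ (Z → ℂ) (h k 1 0) * y k +
    algebraMap ℂ (Z → ℂ) (h k 1 1)
  have hdf : ∀ k, ∀ z : Z, df k z = den (h k) (z.1.2 k) := fun k z => rfl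
  have hnf : ∀ k, ∀ z : Z, nf k z = h k 0 0 * z.1.2 k + h k 0 1 := fun k z => rfl
  have hφn : ∀ k, φ (nf k) = algebraMap ℂ L (h k 0 0) * φ (y k) + algebraMap ℂ L (h k 0 1) := by
    intro k
    rw [map_add, map_mul, AlgHom.commutes, AlgHom.commutes]
  have hφd : ∀ k, φ (df k) = algebraMap ℂ L (h k 1 0) * φ (y k) + algebraMap ℂ L (h k 1 1) := by
    intro k
    rw [map_add, map_mul, AlgHom.commutes, AlgHom.commutes]
  obtain ⟨s₁, hs₁, s₂, hs₂, hs12⟩ := Finset.one_lt_card.1 hT2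
  -- values
  have hval : ∀ s ∈ T, ∀ k : Fin b, Sum.inr k ∉ S₀ → (V s).valuation (φ (nf k)) ≠ 0 ∧
      (V s).valuation (φ (df k)) =
        (V s).valuation ((D.p q₀ s : ℕ) : L) ^ (wt b k s) * (V s).valuation (φ (nf k)) := by
    intro s hs k hk
    have h1 := hS s hs k hk
    have h2 := D.val_h q₀ (V s) s (hT s hs) (hVp s) (hVB s) k (h k) (fun r c => hcl.2 k r c) _ h1
    rw [hφn, hφd]
    change (V s).valuation (algebraMap ℂ L (h k 0 0) * φ (y k) + algebraMap ℂ L (h k 0 1)) ≠ 0 ∧ _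
    rw [show φ (y k) = φ (fun z => coord (z : Pt a b) (Sum.inr k)) from rfl, h2.1, h2.2]
    refine ⟨?_, rfl⟩
    intro h0
    rw [h0] at h1
    exact h1 zero_lt_one
  have hπ0 : ∀ s, 0 < (V s).valuation ((D.p q₀ s : ℕ) : L) := fun s =>
    zero_lt_iff.2 ((Valuation.ne_zero_iff (V s).valuation).2
      (Nat.cast_ne_zero.2 (D.p_prime q₀ s).ne_zero))
  have hdne : ∀ k : Fin b, Sum.inr k ∉ S₀ → φ (df k) ≠ 0 := by
    intro k hk h0
    have h1 := hval s₁ hs₁ k hk
    rw [h0, map_zero] at h1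
    exact mul_ne_zero (pow_ne_zero _ (hπ0 s₁).ne') h1.1 h1.2.symm
  -- no constant coordinate
  have hnone : ∀ k : Fin b, Sum.inr k ∉ S₀ → blk k ≠ none := by
    intro k hk hblk
    have hconst : ∀ z : Z, mob (h k) (z.1.2 k) = sv k := by
      intro z
      obtain ⟨τ, hτ⟩ := hw _ ⟨z.1, z.2, rfl⟩
      exact (hτ k).1 hblk
    rcases special_val _ (V s₁) (hVB s₁) (sv k) (hsv k) with h1 | ⟨x, h1, h2⟩
    · apply hdne k hk
      have h3 : df k = 0 := by
        funext z
        rw [hdf]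
        exact mob_infty (by rw [hconst z, h1])
      rw [h3, map_zero]
    · have h3 : nf k = algebraMap ℂ (Z → ℂ) x * df k := by
        funext z
        have h4 := mob_coe (h := h k) (y := z.1.2 k) (x := x) (by rw [hconst z, h1])
        rw [hnf]
        change _ = x * df k z
        rw [hdf, ← h4.2, div_mul_cancel₀ _ h4.1]
      have h4 := congrArg φ h3
      rw [map_mul, AlgHom.commutes] at h4
      have h5 := congrArg (V s₁).valuation h4
      rw [map_mul, (hval s₁ hs₁ k hk).2] at h5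
      have h6 : (V s₁).valuation (φ (nf k)) < (V s₁).valuation (φ (nf k)) := by
        calc (V s₁).valuation (φ (nf k)) = (V s₁).valuation (algebraMap ℂ L x) *
              ((V s₁).valuation ((D.p q₀ s₁ : ℕ) : L) ^ (wt b k s₁) *
                (V s₁).valuation (φ (nf k))) := h5
          _ ≤ 1 * ((V s₁).valuation ((D.p q₀ s₁ : ℕ) : L) ^ (wt b k s₁) *
                (V s₁).valuation (φ (nf k))) := mul_le_mul_left h2 _
          _ = (V s₁).valuation ((D.p q₀ s₁ : ℕ) : L) ^ (wt b k s₁) *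
                (V s₁).valuation (φ (nf k)) := one_mul _
          _ < 1 * (V s₁).valuation (φ (nf k)) := by
            refine mul_lt_mul_of_pos_right ?_ (zero_lt_iff.2 (hval s₁ hs₁ k hk).1)
            exact pow_lt_one₀ (hπ0 s₁).le (hVp s₁) (wt_prime b k s₁).ne_zero
          _ = (V s₁).valuation (φ (nf k)) := one_mul _
      exact lt_irrefl _ h6
  -- coordinates in one block
  have hinj : ∀ k l : Fin b, k ≠ l → Sum.inr k ∉ S₀ → Sum.inr l ∉ S₀ → blk k ≠ blk l := by
    intro k l hkl hk hl hblk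
    obtain ⟨i, hi⟩ := Option.ne_none_iff_exists'.1 (hnone k hk)
    have hi' : blk l = some i := by rw [← hblk, hi]
    let X : Fin b → Z → ℂ := fun k z => nf k z / df k z
    have hX : ∀ z : Z, ∃ τ : ℍ, (df k z ≠ 0 ∧ X k z = jm (A k) τ) ∧
        (df l z ≠ 0 ∧ X l z = jm (A l) τ) := by
      intro z
      obtain ⟨τ, hτ⟩ := hw _ ⟨z.1, z.2, rfl⟩
      exact ⟨τ i, mob_coe ((hτ k).2 i hi), mob_coe ((hτ l).2 i hi')⟩
    have hφX : ∀ k', (∀ z : Z, df k' z ≠ 0) → φ (X k') * φ (df k') = φ (nf k') := by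
      intro k' hk'
      rw [← map_mul]
      congr 1
      funext z
      exact div_mul_cancel₀ _ (hk' z)
    have hXk := hφX k (fun z => by obtain ⟨τ, h1, h2⟩ := hX z; exact h1.1)
    have hXl := hφX l (fun z => by obtain ⟨τ, h1, h2⟩ := hX z; exact h2.1)
    have hvX : ∀ s ∈ T, ∀ k' : Fin b, Sum.inr k' ∉ S₀ → φ (X k') * φ (df k') = φ (nf k') →
        (V s).valuation (φ (X k')) =
          ((V s).valuation ((D.p q₀ s : ℕ) : L) ^ (wt b k' s))⁻¹ := by
      intro s hs k' hk' hXk'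
      have h1 := congrArg (V s).valuation hXk'
      obtain ⟨h2, h3⟩ := hval s hs k' hk'
      rw [map_mul, h3, ← mul_assoc] at h1
      have h4 : (V s).valuation (φ (X k')) *
          (V s).valuation ((D.p q₀ s : ℕ) : L) ^ (wt b k' s) = 1 :=
        mul_right_cancel₀ h2 (h1.trans (one_mul _).symm)
      exact eq_inv_of_mul_eq_one_left h4
    set N : ℕ := ((A k).det * (A l).det).toNat with hN
    have hpos : 0 < (A k).det * (A l).det := mul_pos (hA k) (hA l)
    have hN' : (N : ℤ) = (A k).det * (A l).det := Int.toNat_of_nonneg hpos.le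
    have hN0 : 0 < N := by omega
    obtain ⟨e, he⟩ := newton_data N hN0
    have hrel := isog_L φ (X k) (X l) (A k) (A l) (hA k) (hA l) N hN'
      (fun z => by obtain ⟨τ, h1, h2⟩ := hX z; exact ⟨τ, h1.2, h2.2⟩) e he
    have hkey : ∀ s ∈ T, ∃ B : ℕ, wt b l s * N = wt b k s * B ^ 2 := by
      intro s hs
      have h1 : 1 < (V s).valuation (φ (X k)) := by
        rw [hvX s hs k hk hXk]
        exact (one_lt_inv₀ (pow_pos (hπ0 s) _)).2
          (pow_lt_one₀ (hπ0 s).le (hVp s) (wt_prime b k s).ne_zero)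
      obtain ⟨B, hB⟩ := newton N hN0 e he L (V s) (φ (X k)) (φ (X l)) hrel h1
      refine ⟨B, ?_⟩
      rw [hvX s hs k hk hXk, hvX s hs l hl hXl, inv_pow, inv_pow, inv_inj, ← pow_mul,
        ← pow_mul, ← zpow_natCast, ← zpow_natCast] at hB
      exact_mod_cast zpow_right_injective₀ (hπ0 s) (hVp s).ne hB
    obtain ⟨B₁, hB₁⟩ := hkey s₁ hs₁
    obtain ⟨B₂, hB₂⟩ := hkey s₂ hs₂
    have hB₁0 : 0 < B₁ := by
      rcases Nat.eq_zero_or_pos B₁ with h0 | h0
      · rw [h0] at hB₁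
        have := Nat.mul_pos (wt_prime b l s₁).pos hN0
        omega
      · exact h0
    have hB₂0 : 0 < B₂ := by
      rcases Nat.eq_zero_or_pos B₂ with h0 | h0
      · rw [h0] at hB₂
        have := Nat.mul_pos (wt_prime b l s₂).pos hN0
        omega
      · exact h0
    have hkl' : (k : ℕ) ≠ l := fun h => hkl (Fin.ext h)
    apply parity (wt b l s₁) (wt b k s₂) (wt b k s₁) (wt b l s₂) B₁ B₂ (wt_prime _ _ _)
      (wt_prime _ _ _) (wt_prime _ _ _) (wt_prime _ _ _) (wt_ne l.2 k.2 (Or.inl hkl'.symm))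
      (wt_ne l.2 k.2 (Or.inl hkl'.symm)) (wt_ne l.2 l.2 (Or.inr hs12)) hB₁0 hB₂0
    apply Nat.eq_of_mul_eq_mul_right hN0
    calc wt b l s₁ * wt b k s₂ * B₂ ^ 2 * N = (wt b l s₁ * N) * (wt b k s₂ * B₂ ^ 2) := by ring
      _ = (wt b k s₁ * B₁ ^ 2) * (wt b l s₂ * N) := by rw [hB₁, hB₂]
      _ = B₁ ^ 2 * (wt b k s₁ * wt b l s₂) * N := by ring
  -- count
  let G : Finset (Fin b) := Finset.univ.filter fun k => Sum.inr k ∉ S₀
  have hG : G.card ≤ m := by
    have h1 : ∀ k : G, ∃ i, blk k.1 = some i := fun k =>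
      Option.ne_none_iff_exists'.1 (hnone k.1 (Finset.mem_filter.1 k.2).2)
    choose f hf using h1
    have h2 : Function.Injective f := by
      intro k l hkl
      by_contra hne
      exact hinj k.1 l.1 (fun h => hne (Subtype.ext h)) (Finset.mem_filter.1 k.2).2
        (Finset.mem_filter.1 l.2).2 (by rw [hf, hf, hkl])
    have h3 := Fintype.card_le_of_injective f h2
    rwa [Fintype.card_coe, Fintype.card_fin] at h3
  have hG' : (Finset.univ.filter fun k : Fin b => Sum.inr k ∈ S₀).card ≤ S₀.card := by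
    refine Finset.card_le_card_of_injOn Sum.inr (fun k hk => ?_) (fun k _ l _ h => ?_)
    · exact (Finset.mem_filter.1 hk).2
    · exact Sum.inr_injective h
  have h4 := Finset.card_filter_add_card_filter_not (s := (Finset.univ : Finset (Fin b)))
    (fun k => Sum.inr k ∈ S₀)
  rw [Finset.card_univ, Fintype.card_fin] at h4
  change G.card ≤ m at hG
  have h5 : G.card = (Finset.univ.filter fun k : Fin b => ¬ Sum.inr k ∈ S₀).card := rfl
  omega

end MT38
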