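import Mathlib
import Pool.Agent.LibMT38.C2
import Pool.Agent.LibMT38.C3

/-! # The main theorem -/

namespace MT38

open MvPolynomial UpperHalfPlane ZP38

variable {a b : ℕ} {Y : Set (Pt a b)} {F₀ : Finset ℂ}

theorem Data.noAtyp (D : Data a b Y F₀) (q₀ : ℕ) (g : Fin a → ℂ)
    (h : Fin b → Matrix (Fin 2) (Fin 2) ℂ) (hcl : InClass (Bring (F₀ : Set ℂ)) (D.M q₀) (D.g₀ q₀) (D.h₀ q₀) g h)
    (γ : Fin a → ℂˣ) (hγ : ∀ i, (γ i : ℂ) = g i) : NoAtypical (Bring (F₀ : Set ℂ)) Y γ h := by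
  classical
  intro Z hZY hZ m hm
  have hZne : Nonempty Z := hZ.to_subtype
  obtain ⟨J, hJc, hJ⟩ := exists_zdim hZ
  obtain ⟨L, _, _, φ, hφ⟩ := gen_hom (T := Z) (fun i z => coord (z : Pt a b) i) J hJ
  have hchar : CharZero L := charZero_of_injective_algebraMap (algebraMap ℂ L).injective
  set ζ : Fin a ⊕ Fin b → L := fun i => φ (fun z => coord (z : Pt a b) i) with hζdef
  have hζJ : ∀ i ∈ J, ζ i ≠ 0 := fun i hi => hφ.ne_zero ⟨i, hi⟩
  have hunit : ∀ f : Z → ℂ, (∀ z, f z ≠ 0) → φ f ≠ 0 := by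
    intro f hf h0
    have h1 : φ (f * f⁻¹) = 1 := by
      rw [← map_one φ]
      congr 1
      funext z
      exact mul_inv_cancel₀ (hf z)
    rw [map_mul, h0, zero_mul] at h1
    exact zero_ne_one h1
  have hζ0 : ∀ i : Fin a, ζ (Sum.inl i) ≠ 0 := fun i =>
    hunit _ fun z => Units.ne_zero (z.1.1 i)
  have hPζ : ∀ I : Finset (Fin a ⊕ Fin b), I.card = zdim Y + 1 → aeval ζ (D.P I) = 0 := by
    intro I hI
    have h1 : (fun i => φ (fun z : Z => coord (z : Pt a b) i)) = ζ := rfl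
    rw [← h1, ← comp_aeval, AlgHom.comp_apply]
    have h2 : aeval (fun i (z : Z) => coord (z : Pt a b) i) (D.P I) = 0 := by
      funext z
      have h3 := (D.hP I hI).2.2 z.1 (hZY z.2)
      have h4 : (Pi.evalAlgHom ℂ (fun _ : Z => ℂ) z) (aeval
          (fun i (z : Z) => coord (z : Pt a b) i) (D.P I)) = aeval (coord z.1) (D.P I) := by
        rw [← AlgHom.comp_apply, comp_aeval]
        rfl
      rw [h3] at h4
      exact h4
    rw [h2, map_zero]
  choose V hVp hVc hVB hVP hVJ using fun s => D.exists_V q₀ ζ J hφ s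
  have hπ0 : ∀ s, 0 < (V s).valuation ((D.p q₀ s : ℕ) : L) := fun s =>
    zero_lt_iff.2 ((Valuation.ne_zero_iff (V s).valuation).2
      (Nat.cast_ne_zero.2 (D.p_prime q₀ s).ne_zero))
  let bad : ℕ → Finset (Fin a ⊕ Fin b) := fun s => Finset.univ.filter fun i =>
    i.isRight = true ∧ (V s).valuation (ζ i - algebraMap ℂ L (D.c i : ℂ)) < 1
  let A : Finset (Fin a ⊕ Fin b) := Finset.univ.filter fun i => i.isLeft = true ∨ i ∈ J
  have hJA : J ⊆ A := fun i hi => Finset.mem_filter.2 ⟨Finset.mem_univ _, Or.inr hi⟩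
  have hζA : ∀ i ∈ A, ζ i ≠ 0 := by
    intro i hi
    rcases (Finset.mem_filter.1 hi).2 with h1 | h1
    · obtain ⟨k, rfl⟩ := Sum.isLeft_iff.1 h1
      exact hζ0 k
    · exact hζJ i h1
  have hJval : ∀ s, ∀ i ∈ J, (V s).valuation (ζ i) ≠ 1 := by
    intro s i hi h1
    have h2 := hVJ s (Pi.single i 1) (fun j hj => Pi.single_eq_of_ne
      (by rintro rfl; exact hj hi) _) 1 one_ne_zero (by
        rw [map_one, one_mul, Finset.prod_eq_single i]
        · rw [Pi.single_eq_same, zpow_one]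
          exact h1
        · intro j _ hji
          rw [Pi.single_eq_of_ne hji, zpow_zero]
        · intro h
          exact absurd hi h)
    have h3 := congrFun h2 i
    rw [Pi.single_eq_same] at h3
    exact one_ne_zero h3
  have hdisj : ∀ s, Disjoint A (bad s) := by
    intro s
    rw [Finset.disjoint_left]
    intro i hi hib
    obtain ⟨h1, h2⟩ := (Finset.mem_filter.1 hib).2
    rcases (Finset.mem_filter.1 hi).2 with h3 | h3
    · obtain ⟨k, rfl⟩ := Sum.isLeft_iff.1 h3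
      simp at h1
    · exact not_bad (V s) _ _ (hVc s i) (hJval s i h3) h2
  let Ds : ℕ → Finset (Fin a ⊕ Fin b → ℤ) := fun s => D.SS.filter fun u =>
    (∀ i, i ∉ A → u i = 0) ∧ (V s).valuation (∏ i ∈ A, ζ i ^ u i) = 1
  obtain ⟨⟨D₀, S₀⟩, hmem, hcard⟩ := Finset.exists_lt_card_fiber_of_mul_lt_card_of_maps_to
    (s := Finset.range D.K)
    (t := D.SS.powerset ×ˢ (Finset.univ : Finset (Finset (Fin a ⊕ Fin b))))
    (f := fun s => (Ds s, bad s)) (n := a + 1)
    (fun s _ => Finset.mem_product.2 ⟨Finset.mem_powerset.2 (Finset.filter_subset _ _),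
      Finset.mem_univ _⟩)
    (by rw [Finset.card_range]; exact Nat.lt_succ_self _)
  set T : Finset ℕ := (Finset.range D.K).filter fun s => (Ds s, bad s) = (D₀, S₀) with hT
  have hTK : ∀ s ∈ T, s < D.K := fun s hs => Finset.mem_range.1 (Finset.mem_filter.1 hs).1
  have hTD : ∀ s ∈ T, Ds s = D₀ := fun s hs => congrArg Prod.fst (Finset.mem_filter.1 hs).2
  have hTS : ∀ s ∈ T, bad s = S₀ := fun s hs => congrArg Prod.snd (Finset.mem_filter.1 hs).2
  obtain ⟨s₀, hs₀⟩ : T.Nonempty := Finset.card_pos.1 (by omega)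
  let Δ : Submodule ℤ (Fin a ⊕ Fin b → ℤ) := Submodule.span ℤ (D₀ : Set (Fin a ⊕ Fin b → ℤ))
  have hprodne : ∀ v : Fin a ⊕ Fin b → ℤ, ∏ i ∈ A, ζ i ^ v i ≠ 0 := fun v =>
    Finset.prod_ne_zero_iff.2 fun i hi => zpow_ne_zero _ (hζA i hi)
  have hadd : ∀ v w : Fin a ⊕ Fin b → ℤ,
      ∏ i ∈ A, ζ i ^ (v + w) i = (∏ i ∈ A, ζ i ^ v i) * ∏ i ∈ A, ζ i ^ w i := by
    intro v w
    rw [← Finset.prod_mul_distrib]
    exact Finset.prod_congr rfl fun i hi => zpow_add₀ (hζA i hi) _ _
  have hΔ : ∀ v ∈ Δ, (∀ i, i ∉ A → v i = 0) ∧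
      ∀ s ∈ T, (V s).valuation (∏ i ∈ A, ζ i ^ v i) = 1 := by
    intro v hv
    induction hv using Submodule.span_induction with
    | mem x hx =>
      refine ⟨?_, fun s hs => ?_⟩
      · rw [Finset.mem_coe, ← hTD s₀ hs₀] at hx
        exact (Finset.mem_filter.1 hx).2.1
      · rw [Finset.mem_coe, ← hTD s hs] at hx
        exact (Finset.mem_filter.1 hx).2.2
    | zero => exact ⟨fun _ _ => rfl, fun s _ => by simp⟩
    | add x y _ _ hx hy =>
      refine ⟨fun i hi => ?_, fun s hs => ?_⟩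
      · rw [Pi.add_apply, hx.1 i hi, hy.1 i hi, add_zero]
      · rw [hadd, map_mul, hx.2 s hs, hy.2 s hs, one_mul]
    | smul r x _ hx =>
      refine ⟨fun i hi => ?_, fun s hs => ?_⟩
      · rw [Pi.smul_apply, hx.1 i hi, smul_zero]
      · have h1 : ∏ i ∈ A, ζ i ^ (r • x) i = (∏ i ∈ A, ζ i ^ x i) ^ r := by
          rw [← Finset.prod_zpow]
          refine Finset.prod_congr rfl fun i _ => ?_
          rw [← zpow_mul, mul_comm]
          rfl
        rw [h1, map_zpow₀, hx.2 s hs, one_zpow]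
  -- rank of `Δ`
  have hrank : A.card + S₀.card ≤ zdim Y + Module.finrank ℤ Δ := by
    apply rank_lemma Δ A S₀ (by rw [← hTS s₀ hs₀]; exact hdisj s₀)
    intro I hIA hI
    obtain ⟨hP0, hPv, -⟩ := D.hP I hI
    have hIS : I \ S₀ ⊆ A := by
      intro i hi
      rw [Finset.mem_sdiff] at hi
      exact (Finset.mem_union.1 (hIA hi.1)).resolve_right hi.2
    obtain ⟨α, hα, β, hβ, hne, hsupp, hv⟩ := trop (V s₀) ζ I S₀ (fun i => (D.c i : ℂ)) (D.P I)
      hP0 hPv (fun i hi hi' => hζA i (hIS (Finset.mem_sdiff.2 ⟨hi, hi'⟩)))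
      (hVP s₀ I hI).1 (fun i _ => (hVc s₀ i).le) (fun i hi => by
        rw [← hTS s₀ hs₀] at hi
        exact (Finset.mem_filter.1 hi).2.2)
      (D.hc I hI S₀) ((hVP s₀ I hI).2 S₀) (hPζ I hI)
    have hsupp' : ∀ i, i ∉ I \ S₀ → (α i : ℤ) - (β i : ℤ) = 0 := by
      intro i hi
      rw [(hsupp i hi).1, (hsupp i hi).2, sub_self]
    refine ⟨fun i => (α i : ℤ) - (β i : ℤ), ?_, ?_, hsupp'⟩
    · apply Submodule.subset_span
      rw [Finset.mem_coe, ← hTD s₀ hs₀]
      refine Finset.mem_filter.2 ⟨?_, fun i hi => hsupp' i fun h1 => hi (hIS h1), ?_⟩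
      · simp only [Data.SS, Finset.mem_biUnion, Finset.mem_image, Finset.mem_univ, true_and]
        exact ⟨I, S₀, (α, β), Finset.mem_product.2 ⟨hα, hβ⟩, rfl⟩
      · rw [← hv]
        congr 1
        refine (Finset.prod_subset hIS fun i _ hi => ?_).symm
        change ζ i ^ ((α i : ℤ) - (β i : ℤ)) = 1
        rw [hsupp' i hi, zpow_zero]
    · intro h1
      apply hne
      ext i
      have := congrFun h1 i
      simp only [Pi.zero_apply] at this
      omega
  -- the torus part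
  have hsum := sum_lemma (unitRel (Bring (F₀ : Set ℂ)) {w | ∃ z ∈ Z, w = γ * z.1}) Δ
    (Sum.inl : Fin a → Fin a ⊕ Fin b) Sum.inl_injective A J hJA
    (fun i => Finset.mem_filter.2 ⟨Finset.mem_univ _, Or.inl rfl⟩) (fun v hv => (hΔ v hv).1)
    (by
      intro v hv w hw x hx hwx hvwx
      obtain ⟨u, hu, hu', huv⟩ := hv
      -- the relation at the generic point
      have hgen : (∏ i, (algebraMap ℂ L (g i)) ^ v i) * ∏ i, ζ (Sum.inl i) ^ v i =
          algebraMap ℂ L (u : ℂ) := by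
        have h1 : ∏ i, (fun z : Z => γ i * z.1.1 i) ^ v i = fun _ : Z => u := by
          funext z
          rw [Finset.prod_apply]
          exact huv (γ * z.1.1) ⟨z.1, z.2, rfl⟩
        have h2 := congrArg (fun f : Z → ℂˣ => Units.map (φ : (Z → ℂ) →* L)
          (MulEquiv.piUnits.symm f)) h1
        simp only [map_prod, map_zpow] at h2
        have h3 := congrArg (Units.val : Lˣ → L) h2
        rw [Units.coe_prod] at h3
        have h4 : ∀ i, (((Units.map (φ : (Z → ℂ) →* L)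
            (MulEquiv.piUnits.symm (fun z : Z => γ i * z.1.1 i)) : Lˣ) ^ v i : Lˣ) : L) =
            algebraMap ℂ L (g i) ^ v i * ζ (Sum.inl i) ^ v i := by
          intro i
          rw [Units.val_zpow_eq_zpow_val, ← mul_zpow]
          congr 1
          rw [← hγ i, ← φ.commutes, ← map_mul]
          rfl
        rw [Finset.prod_congr rfl fun i _ => h4 i, Finset.prod_mul_distrib] at h3
        rw [h3, ← φ.commutes]
        rfl
      have hrel : ∀ s ∈ T, (V s).valuation (∏ i, ζ (Sum.inl i) ^ v i) =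
          (V s).valuation ((D.p q₀ s : ℕ) : L) ^ (-∑ i, v i * (s : ℤ) ^ (i : ℕ)) := by
        intro s hs
        have h1 := congrArg (V s).valuation hgen
        have hu1 : (V s).valuation (algebraMap ℂ L (u : ℂ)) = 1 := by
          apply le_antisymm
          · exact hVB s _ hu
          · have h2 : (V s).valuation (algebraMap ℂ L ((u⁻¹ : ℂˣ) : ℂ)) ≤ 1 := hVB s _ hu'
            rw [Units.val_inv_eq_inv_val, map_inv₀, map_inv₀] at h2
            have h0 : (V s).valuation (algebraMap ℂ L (u : ℂ)) ≠ 0 :=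
              (Valuation.ne_zero_iff (V s).valuation).2
                ((map_ne_zero (algebraMap ℂ L)).2 (Units.ne_zero u))
            exact (inv_le_one₀ (zero_lt_iff.2 h0)).1 h2
        rw [map_mul, hu1, map_prod] at h1
        have h3 : ∏ i, (V s).valuation (algebraMap ℂ L (g i) ^ v i) =
            (V s).valuation ((D.p q₀ s : ℕ) : L) ^ (∑ i, v i * (s : ℤ) ^ (i : ℕ)) := by
          rw [← Pool.Agent.LibTT45.prod_zpow_sum _ _ (hπ0 s).ne']
          refine Finset.prod_congr rfl fun i _ => ?_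
          rw [map_zpow₀, D.val_g q₀ (V s) s (hTK s hs) (hVp s) (hVB s) i (g i) (hcl.1 i), ← zpow_natCast,
            ← zpow_mul, mul_comm]
          push_cast
          rfl
        rw [h3] at h1
        rw [zpow_neg]
        exact eq_inv_of_mul_eq_one_right h1
      -- `v` as a vector of exponents
      let v' : Fin a ⊕ Fin b → ℤ := Sum.elim v fun _ => 0
      have hv'A : ∏ i ∈ A, ζ i ^ v' i = ∏ i, ζ (Sum.inl i) ^ v i := by
        rw [Finset.prod_subset (Finset.subset_univ A), Fintype.prod_sum_type]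
        · have h1 : ∏ k : Fin b, ζ (Sum.inr k) ^ v' (Sum.inr k) = 1 :=
            Finset.prod_eq_one fun k _ => zpow_zero _
          rw [h1, mul_one]
          rfl
        · intro i _ hi
          rcases i with i | k
          · exact absurd (show Sum.inl i ∈ A from
              Finset.mem_filter.2 ⟨Finset.mem_univ _, Or.inl rfl⟩) hi
          · exact zpow_zero _
      have hzero : v' + w + x = 0 := by
        funext i
        rcases i with i | k
        · exact hvwx i
        · have := hwx (Sum.inr k) (by simp)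
          change 0 + w (Sum.inr k) + x (Sum.inr k) = 0
          rw [zero_add]
          exact this
      have hxJ : ∏ i ∈ A, ζ i ^ x i = ∏ i ∈ J, ζ i ^ x i :=
        (Finset.prod_subset hJA fun i _ hi => by rw [hx i hi, zpow_zero]).symm
      have hxs : ∀ s ∈ T, x = 0 ∧ ∑ i, v i * (s : ℤ) ^ (i : ℕ) = 0 := by
        intro s hs
        set e : ℤ := ∑ i, v i * (s : ℤ) ^ (i : ℕ) with he
        have h1 : (∏ i ∈ A, ζ i ^ v' i) * (∏ i ∈ A, ζ i ^ w i) * ∏ i ∈ A, ζ i ^ x i = 1 := by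
          rw [← hadd, ← hadd, hzero]
          simp
        have h2 := congrArg (V s).valuation h1
        rw [map_mul, map_mul, (hΔ w hw).2 s hs, hv'A, hrel s hs, mul_one, map_one] at h2
        have h3 : (V s).valuation (∏ i ∈ A, ζ i ^ x i) =
            (V s).valuation ((D.p q₀ s : ℕ) : L) ^ e := by
          rw [zpow_neg] at h2
          exact (inv_mul_eq_one₀ (zpow_ne_zero _ (hπ0 s).ne')).1 h2 |>.symm
        have hx0 : x = 0 := by
          refine hVJ s x hx (((D.p q₀ s : ℕ) : ℂ) ^ (-e)) (zpow_ne_zero _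
            (Nat.cast_ne_zero.2 (D.p_prime q₀ s).ne_zero)) ?_
          rw [← hxJ, map_zpow₀, map_natCast, map_mul, map_zpow₀, h3, zpow_neg,
            inv_mul_cancel₀ (zpow_ne_zero _ (hπ0 s).ne')]
        refine ⟨hx0, ?_⟩
        rw [hx0] at h3
        simp only [Pi.zero_apply, zpow_zero, Finset.prod_const_one, map_one] at h3
        by_contra hne
        exact ((zpow_right_injective₀ (hπ0 s) (hVp s).ne).ne hne) (by rw [← h3, zpow_zero])
      have hx0 : x = 0 := (hxs s₀ hs₀).1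
      have hv0 : v = 0 := Pool.Agent.LibTT45.vander v T (by omega) fun s hs => (hxs s hs).2
      refine ⟨hv0, ?_, hx0⟩
      have hv'0 : v' = 0 := by
        funext i
        rcases i with i | k
        · exact congrFun hv0 i
        · rfl
      rw [hv'0, hx0, zero_add, add_zero] at hzero
      exact hzero)
  -- the modular part
  have hblock := D.block_le q₀ g h hcl Z m hm φ V hVp hVB T hTK (by omega) S₀ (by
    intro s hs k hk h1
    apply hk
    rw [← hTS s hs]
    exact Finset.mem_filter.2 ⟨Finset.mem_univ _, rfl, h1⟩)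
  rw [hJc] at hsum
  omega

theorem main (a b : ℕ) (Y : Set (Pt a b)) (F₀ : Finset ℂ) (q₀ : ℕ) :
    ∃ (M : ℕ) (g₀ : Fin a → ℕ) (h₀ : Fin b → Matrix (Fin 2) (Fin 2) ℤ), 0 < M ∧
      (∀ q : ℕ, q.Prime → q ∣ M → q₀ < q) ∧ (∀ k, (h₀ k).det ≠ 0) ∧
      ∀ (g : Fin a → ℂ) (h : Fin b → Matrix (Fin 2) (Fin 2) ℂ),
        InClass (Bring (F₀ : Set ℂ)) M g₀ h₀ g h →
          ∃ γ : Fin a → ℂˣ, (∀ i, (γ i : ℂ) = g i) ∧ NoAtypical (Bring (F₀ : Set ℂ)) Y γ h := by
  obtain ⟨D⟩ := exists_data a b Y F₀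
  refine ⟨D.M q₀, D.g₀ q₀, D.h₀ q₀, D.M_pos q₀, D.M_prime q₀, D.det_h₀ q₀, fun g h hcl => ?_⟩
  have hg0 : ∀ i, g i ≠ 0 := by
    intro i h0
    obtain ⟨V, hV, -, hVB, -⟩ := D.hV (D.p q₀ 0) (D.p_prime q₀ 0) (D.p_not_dvd q₀ 0)
    have h1 := D.val_g q₀ (L := ℂ) V 0 (Nat.succ_pos _) hV hVB i (g i) (hcl.1 i)
    rw [h0, map_zero, map_zero] at h1
    refine pow_ne_zero _ ?_ h1.symm
    exact (Valuation.ne_zero_iff V.valuation).2 (Nat.cast_ne_zero.2 (D.p_prime q₀ 0).ne_zero)
  exact ⟨fun i => Units.mk0 (g i) (hg0 i), fun i => rfl,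
    D.noAtyp q₀ g h hcl _ fun i => rfl⟩

end MT38
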